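import Pool.Agent.Lib.MP_53c676_al.Defs

/-!
The branch groups generated by rooted and directed copies of alternating groups.
-/

namespace Pool.Agent.Lib.MP_53c676_al

/-- A permutation of `{0, ..., j - 1}` as a map of the natural numbers that fixes all `x ≥ j`. -/
def extPerm {j : ℕ} (τ : Equiv.Perm (Fin j)) (x : ℕ) : ℕ :=
  if h : x < j then (τ ⟨x, h⟩ : ℕ) else x

/-- The rooted action on words: `τ` acts on the first letter only. -/
def rootAct {j : ℕ} (τ : Equiv.Perm (Fin j)) : List ℕ → List ℕ
  | [] => []
  | x :: w => extPerm τ x :: w

/-- The directed action on words along the ray `000...`: below every vertex `0...01` that has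
exactly `j` children, `τ` acts as a rooted permutation; all other words are fixed. -/
def dirAct {j : ℕ} (τ : Equiv.Perm (Fin j)) : (ℕ → ℕ) → List ℕ → List ℕ
  | _, [] => []
  | k, x :: w => x :: (if x = 0 then dirAct τ (fun i => k (i + 1)) w
      else if x = 1 ∧ k 1 = j then rootAct τ w else w)

/-- The group generated by the rooted even permutations of the first level and by the directed
automorphisms attached to even permutations. -/
def altGroup (k : ℕ → ℕ) : Subgroup (Equiv.Perm (Vertex k)) :=
  Subgroup.closure {g |
    (∃ τ ∈ alternatingGroup (Fin (k 0)), ∀ v : Vertex k, (g v).1 = rootAct τ v.1) ∨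
    ∃ j : ℕ, ∃ τ ∈ alternatingGroup (Fin j), ∀ v : Vertex k, (g v).1 = dirAct τ k v.1}

end Pool.Agent.Lib.MP_53c676_al
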