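import Pool.Agent.Lib.MP_53c676_al.AltNorm

/-!
The group `altGroup k` is a branch group, and it is minimal iff `k` is eventually periodic.
-/

namespace Pool.Agent.Lib.MP_53c676_al

open Equiv Subgroup
open scoped commutatorElement

variable {k : Sq}

theorem gam_cons (g : Gam k) : ∃ (f : Fin (k.1 0) → Gam k.s) (τ : Perm (Fin (k.1 0))),
    ∀ x w, g.1 (vcons x w) = vcons (τ x) ((f x).1 w) := by
  obtain ⟨f, τ, rfl⟩ := exists_er g
  exact ⟨fun x => f (τ.1 x), τ.1, fun x w => by simp [eH_val, rH_val]⟩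

theorem gam_eq_nil (g : Gam k) {v : Vertex k.1} : g.1 v = vnil k.1 ↔ v = vnil k.1 := by
  conv_lhs => rw [← gam_nil g]
  exact g.1.injective.eq_iff

theorem not_isChild_nil {k : ℕ → ℕ} (u : Vertex k) : ¬ IsChild u (vnil k) := by
  rintro ⟨x, hx⟩
  simp at hx

theorem isChild_nil_cons {k : ℕ → ℕ} (y : Fin (k 0)) (w : Vertex (sh k)) :
    IsChild (vnil k) (vcons y w) ↔ w = vnil (sh k) := by
  constructor
  · rintro ⟨x, hx⟩
    simp only [vcons_val, vnil_val, List.nil_append, List.cons.injEq] at hx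
    exact Subtype.ext hx.2
  · rintro rfl
    exact ⟨y.1, rfl⟩

theorem isChild_cons_cons {k : ℕ → ℕ} (x y : Fin (k 0)) (u w : Vertex (sh k)) :
    IsChild (vcons x u) (vcons y w) ↔ x = y ∧ IsChild u w := by
  constructor
  · rintro ⟨z, hz⟩
    simp only [vcons_val, List.cons_append, List.cons.injEq] at hz
    exact ⟨Fin.ext hz.1.symm, z, hz.2⟩
  · rintro ⟨rfl, z, hz⟩
    exact ⟨z, by simp [hz]⟩

theorem gam_child (n : ℕ) : ∀ (k : Sq) (g : Gam k) (u v : Vertex k.1), u.1.length = n →
    (IsChild (g.1 u) (g.1 v) ↔ IsChild u v) := by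
  induction n with
  | zero =>
    intro k g u v hu
    obtain ⟨f, τ, h⟩ := gam_cons g
    rcases vcases u with rfl | ⟨x, u, rfl⟩
    · rcases vcases v with rfl | ⟨y, v, rfl⟩
      · rw [gam_nil]
      · rw [gam_nil, h, isChild_nil_cons, isChild_nil_cons]
        exact gam_eq_nil (f y)
    · simp at hu
  | succ n ih =>
    intro k g u v hu
    obtain ⟨f, τ, h⟩ := gam_cons g
    rcases vcases u with rfl | ⟨x, u, rfl⟩
    · simp at hu
    · rcases vcases v with rfl | ⟨y, v, rfl⟩
      · rw [gam_nil]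
        exact iff_of_false (not_isChild_nil _) (not_isChild_nil _)
      · rw [h, h, isChild_cons_cons, isChild_cons_cons, τ.injective.eq_iff]
        refine and_congr_right ?_
        rintro rfl
        exact ih k.s (f x) u v (by simpa using hu)

theorem gam_trans (n : ℕ) : ∀ (k : Sq) (u v : Vertex k.1), u.1.length = n → v.1.length = n →
    ∃ g : Gam k, g.1 u = v := by
  induction n with
  | zero =>
    intro k u v hu hv
    exact ⟨1, Subtype.ext ((List.length_eq_zero_iff.1 hu).trans
      (List.length_eq_zero_iff.1 hv).symm)⟩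
  | succ n ih =>
    intro k u v hu hv
    rcases vcases u with rfl | ⟨x, u, rfl⟩
    · simp at hu
    rcases vcases v with rfl | ⟨y, v, rfl⟩
    · simp at hv
    obtain ⟨a, ha⟩ := ih k.s u v (by simpa using hu) (by simpa using hv)
    obtain ⟨τ, hτ⟩ := alt_trans k x y
    exact ⟨rH k τ * eH k fun _ => a, by simp [eH_val, rH_val, ha, hτ]⟩

theorem single_mem_rist (x : Fin (k.1 0)) (u : Vertex k.s.1) {a : Gam k.s}
    (ha : a ∈ rist (altGroup k.s.1).subtype u) :
    eH k (Pi.mulSingle x a) ∈ rist (altGroup k.1).subtype (vcons x u) := by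
  intro v hv
  rcases vcases v with rfl | ⟨y, v, rfl⟩
  · exact gam_nil _
  · show (eH k (Pi.mulSingle x a)).1 (vcons y v) = vcons y v
    rw [eH_val, secHom_cons]
    by_cases hy : y = x
    · subst hy
      rw [Pi.mulSingle_eq_same]
      exact congrArg _ (ha v fun h => hv (by simpa using h))
    · rw [Pi.mulSingle_eq_of_ne hy]
      rfl

theorem St_le_rist (n : ℕ) : ∀ k : Sq, St n k ≤ ristLevel (altGroup k.1).subtype n := by
  induction n with
  | zero =>
    intro k g _
    refine mem_iSup_of_mem ⟨vnil k.1, rfl⟩ fun v hv => absurd ?_ hv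
    exact List.nil_prefix
  | succ n ih =>
    rintro k _ ⟨f, hf, rfl⟩
    refine pi_mem_of_mulSingle_mem
      (H := (ristLevel (altGroup k.1).subtype (n + 1)).comap (eH k)) f fun x => ?_
    have key : ristLevel (altGroup k.s.1).subtype n ≤
        (ristLevel (altGroup k.1).subtype (n + 1)).comap
          ((eH k).comp (MonoidHom.mulSingle (fun _ : Fin (k.1 0) => Gam k.s) x)) :=
      iSup_le fun u a ha => mem_iSup_of_mem ⟨vcons x u.1, by simp [u.2]⟩ (single_mem_rist x u.1 ha)
    exact key (ih k.s (hf x trivial))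

theorem gam_branch (k : Sq) : IsBranchAction k.1 (altGroup k.1).subtype :=
  ⟨fun n => le_trans (by norm_num) (k.2 n), fun g u v => gam_child _ k g u v rfl,
    (altGroup k.1).subtype_injective, fun u v h => gam_trans _ k u v h rfl,
    fun n => fi_le (St_fi n k) (St_le_rist n k)⟩

/-- Equal sequences give the same group. -/
def gamCongr {k k' : Sq} (h : k = k') : Gam k ≃* Gam k' := h ▸ MulEquiv.refl (Gam k)

/-- `D` is a product of vertex groups whose cones have total measure `w`. -/
def Rep (k : Sq) (D : Type) [Group D] (w : ℚ) : Prop :=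
  ∃ (I : Type) (_ : Fintype I) (n : I → ℕ), Nonempty (D ≃* ∀ i, Gam (Sq.s^[n i] k)) ∧
    ∑ i, ((lv k (n i) : ℚ))⁻¹ = w

theorem rep_pow (k : Sq) (a : ℕ) : Rep k (Fin a → Gam k) a :=
  ⟨Fin a, inferInstance, fun _ => 0, ⟨MulEquiv.refl _⟩, by simp [lv]⟩

theorem Rep.equiv {D D' : Type} [Group D] [Group D'] {w : ℚ} (h : Rep k D w) (e : D' ≃* D) :
    Rep k D' w := by
  obtain ⟨I, hI, n, ⟨φ⟩, hw⟩ := h
  exact ⟨I, hI, n, ⟨e.trans φ⟩, hw⟩

theorem Rep.normal {D : Type} [Group D] {w : ℚ} (h : Rep k D w) (N : Subgroup D) (hN : N.Normal)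
    (hf : N.FiniteIndex) : Rep k N w := by
  obtain ⟨I, hI, n, ⟨φ⟩, hw⟩ := h
  let M := N.map φ.toMonoidHom
  have hM : M.Normal := hN.map _ φ.surjective
  have hMf : M.FiniteIndex := fi_map _ hf (fi_range_of_surj _ φ.surjective)
  have hj : ∀ i, ∃ j, M.map (Pi.evalMonoidHom _ i) = St j (Sq.s^[n i] k) := fun i => by
    have := gam_infinite (Sq.s^[n i] k)
    exact normal_eq_St _ (proj_normal M i)
      (ne_bot_of_fi (fi_map _ hMf (fi_range_of_surj _ (Function.surjective_eval i))))
  choose j hj using hj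
  have hpi : M = Subgroup.pi Set.univ fun i => St (j i) (Sq.s^[n i] k) := by
    rw [normal_pi (fun i => gam_tight _) M]
    exact congrArg _ (funext hj)
  choose K hK hc he using fun i => St_iso (j i) (Sq.s^[n i] k)
  have := fun i => Fintype.ofFinite (K i)
  refine ⟨Σ i, K i, inferInstance, fun p => j p.1 + n p.1,
    ⟨((equivMapOfInjective N φ.toMonoidHom φ.injective).trans (MulEquiv.subgroupCongr hpi)).trans
      (((piSub _).trans (MulEquiv.piCongrRight fun i => (he i).some)).trans
        ((piSigma _).trans (MulEquiv.piCongrRight fun p =>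
          gamCongr (Function.iterate_add_apply Sq.s (j p.1) (n p.1) k).symm)))⟩, ?_⟩
  rw [← hw, Fintype.sum_sigma]
  refine Finset.sum_congr rfl fun i _ => ?_
  have h1 : (0 : ℚ) < lv (Sq.s^[n i] k) (j i) := by exact_mod_cast lv_pos _ _
  have h2 : (0 : ℚ) < lv k (n i) := by exact_mod_cast lv_pos _ _
  simp only [Finset.sum_const, Finset.card_univ, ← Nat.card_eq_fintype_card, hc, nsmul_eq_mul]
  rw [add_comm, lv_add]
  push_cast
  field_simp

theorem Rep.unique (hk : ∀ m n, Sq.s^[m] k = Sq.s^[n] k → m = n) {D : Type} [Group D] {w w' : ℚ}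
    (h : Rep k D w) (h' : Rep k D w') : w = w' := by
  obtain ⟨I, hI, n, ⟨φ⟩, hw⟩ := h
  obtain ⟨I', hI', n', ⟨φ'⟩, hw'⟩ := h'
  obtain ⟨σ, hσ⟩ := factors_unique (fun _ => gam_tight _) (fun _ => gam_tight _) (φ.symm.trans φ')
  rw [← hw, ← hw', ← σ.sum_comp]
  exact Finset.sum_congr rfl fun i _ => by rw [hk _ _ (rigid (hσ i))]

theorem eq_of_absComm (hk : ∀ m n, Sq.s^[m] k = Sq.s^[n] k → m = n) {a b : ℕ}
    (h : AbsComm (Fin a → Gam k) (Fin b → Gam k)) : a = b := by
  obtain ⟨H, H', hH, hH', ⟨φ⟩⟩ := h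
  have hle : H'.normalCore ≤ H' := normalCore_le H'
  have f1 : H'.normalCore.FiniteIndex := inferInstance
  let U := ((H'.normalCore.subgroupOf H').comap φ.toMonoidHom).map H.subtype
  have hU : U.FiniteIndex :=
    fi_map _ (fi_comap _ (fi_comap _ f1)) (by rw [range_subtype]; exact hH)
  have f2 : U.normalCore.FiniteIndex := inferInstance
  have hUH : U.normalCore ≤ H := (normalCore_le U).trans (map_subtype_le _)
  let M := (U.normalCore.subgroupOf H).map φ.toMonoidHom
  have hM : M.Normal := Normal.map inferInstance _ φ.surjective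
  have hMf : M.FiniteIndex := fi_map _ (fi_comap _ f2) (fi_range_of_surj _ φ.surjective)
  have hMr : M ≤ (inclusion hle).range := by
    rintro _ ⟨x, hx, rfl⟩
    obtain ⟨y, hy, e⟩ := normalCore_le U hx
    obtain rfl : y = x := Subtype.ext e
    exact ⟨⟨_, hy⟩, rfl⟩
  have r1 : Rep k (M.comap (inclusion hle)) b :=
    ((rep_pow k b).normal _ inferInstance f1).normal _ (hM.comap _) (fi_comap _ hMf)
  have r2 : Rep k (M.comap (inclusion hle)) a :=
    ((rep_pow k a).normal _ inferInstance f2).equiv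
      (((equivMapOfInjective _ _ (inclusion_injective hle)).trans
        (MulEquiv.subgroupCongr (map_comap_eq_self hMr))).trans
        ((equivMapOfInjective _ φ.toMonoidHom φ.injective).symm.trans (subgroupOfEquivOfLe hUH)))
  exact_mod_cast r2.unique hk r1

theorem ve_shift (k : Sq) (j : ℕ) : ∃ (I : Type) (_ : Finite I), Nat.card I = lv k j ∧
    VE (I → Gam (Sq.s^[j] k)) (Gam k) := by
  obtain ⟨I, hI, hc, ⟨e⟩⟩ := St_iso j k
  exact ⟨I, hI, hc, (VE.of_equiv e.symm).trans (VE.subgroup _ (St_fi j k))⟩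

theorem absComm_of_eq {m n : ℕ} (h : Sq.s^[m] k = Sq.s^[n] k) :
    AbsComm (Fin (lv k n) → Gam k) (Fin (lv k m) → Gam k) := by
  obtain ⟨I, hI, hc, e⟩ := ve_shift k m
  obtain ⟨I', hI', hc', e'⟩ := ve_shift k n
  rw [← h] at e'
  refine absComm_iff.2 ((((VE.pi _ e).symm.trans (VE.curry _ _).symm).trans
    (VE.of_card_eq ?_)).trans ((VE.curry _ _).trans (VE.pi _ e')))
  simp [hc, hc', mul_comm]

theorem lv_lt (k : Sq) (n : ℕ) {p : ℕ} (hp : 0 < p) : lv k n < lv k (n + p) := by
  have : StrictMono (lv k) := strictMono_nat_of_lt_succ fun j => by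
    have h1 := lv_pos k j
    have h2 := k.2 j
    have e : lv k (j + 1) = lv k j * k.1 j := Finset.prod_range_succ _ _
    rw [e]
    nlinarith
  exact this (by omega)

theorem gam_minimal_iff (k : Sq) :
    IsMinimalGroup (Gam k) ↔ ∃ p > 0, ∃ N, ∀ n ≥ N, k.1 (n + p) = k.1 n := by
  refine ((criterion (gam_branch k) (gam_ji k)).out 0 1).trans ⟨?_, ?_⟩
  · rintro ⟨a, b, hab, h⟩
    by_contra hcon
    refine hab (eq_of_absComm (fun m n hmn => ?_) h)
    have key : ∀ m n, m < n → Sq.s^[m] k = Sq.s^[n] k → False := by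
      intro m n hlt e
      refine hcon ⟨n - m, by omega, m, fun i hi => ?_⟩
      have := congrFun (congrArg Subtype.val e) (i - m)
      rw [iter_val, iter_val, Nat.sub_add_cancel hi] at this
      have e2 : i + (n - m) = i - m + n := by omega
      rw [e2, ← this]
    rcases lt_trichotomy m n with h1 | h1 | h1
    · exact (key m n h1 hmn).elim
    · exact h1
    · exact (key n m h1 hmn.symm).elim
  · rintro ⟨p, hp, N, h⟩
    refine ⟨_, _, (lv_lt k N hp).ne', absComm_of_eq (m := N) (n := N + p) ?_⟩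
    refine Subtype.ext (funext fun i => ?_)
    rw [iter_val, iter_val, ← add_assoc, h _ (Nat.le_add_left _ _)]

end Pool.Agent.Lib.MP_53c676_al
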