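import Mathlib

/-!
Finite products of groups all of whose normal subgroups are perfect.
-/

namespace Pool.Agent.Lib.MP_53c676_al

open Subgroup
open scoped commutatorElement

/-- Non-trivial groups in which normal subgroups are perfect and non-trivial normal subgroups
intersect non-trivially. -/
structure Tight (D : Type) [Group D] : Prop where
  nt : Nontrivial D
  perf : ∀ N : Subgroup D, N.Normal → ⁅N, N⁆ = N
  meet : ∀ M N : Subgroup D, M.Normal → N.Normal → M ≠ ⊥ → N ≠ ⊥ → M ⊓ N ≠ ⊥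

section

variable {I J : Type} {D : I → Type} {D' : J → Type} [∀ i, Group (D i)] [∀ j, Group (D' j)]

theorem proj_normal (N : Subgroup (∀ i, D i)) [hN : N.Normal] (i : I) :
    (N.map (Pi.evalMonoidHom D i)).Normal :=
  hN.map _ (Function.surjective_eval i)

theorem comm_single [DecidableEq I] (f : ∀ i, D i) (i : I) (b : D i) :
    ⁅f, (Pi.mulSingle i b : ∀ i, D i)⁆ = Pi.mulSingle i ⁅f i, b⁆ := by
  funext z
  simp only [commutatorElement_def, Pi.mul_apply, Pi.inv_apply]
  by_cases h : z = i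
  · subst h
    simp
  · simp [Pi.mulSingle_eq_of_ne h]

theorem single_mem [DecidableEq I] (N : Subgroup (∀ i, D i)) [hN : N.Normal] (i : I)
    (h : ⁅N.map (Pi.evalMonoidHom D i), N.map (Pi.evalMonoidHom D i)⁆ =
      N.map (Pi.evalMonoidHom D i)) {a : D i} (ha : a ∈ N.map (Pi.evalMonoidHom D i)) :
    Pi.mulSingle i a ∈ N := by
  rw [← h] at ha
  have : ⁅N.map (Pi.evalMonoidHom D i), N.map (Pi.evalMonoidHom D i)⁆ ≤
      N.comap (MonoidHom.mulSingle D i) := commutator_le.2 (by
    rintro _ ⟨f, hf, rfl⟩ b -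
    rw [mem_comap, MonoidHom.mulSingle_apply, Pi.evalMonoidHom_apply, ← comm_single,
      commutatorElement_def, mul_assoc, mul_assoc]
    refine mul_mem hf ?_
    rw [← mul_assoc]
    exact hN.conj_mem _ (inv_mem hf) _)
  exact this ha

theorem normal_pi [Finite I] (h : ∀ i, Tight (D i)) (N : Subgroup (∀ i, D i)) [N.Normal] :
    N = Subgroup.pi Set.univ fun i => N.map (Pi.evalMonoidHom D i) := by
  classical
  refine le_antisymm (fun f hf i _ => ⟨f, hf, rfl⟩) fun f hf => ?_
  exact pi_mem_of_mulSingle_mem f fun i =>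
    single_mem N i ((h i).perf _ (proj_normal N i)) (hf i trivial)

/-- Elements supported at one index. -/
def suppAt (D : I → Type) [∀ i, Group (D i)] (i : I) : Subgroup (∀ i, D i) where
  carrier := {f | ∀ z, z ≠ i → f z = 1}
  one_mem' := fun _ _ => rfl
  mul_mem' := fun {a b} ha hb z hz => by rw [Pi.mul_apply, ha z hz, hb z hz, mul_one]
  inv_mem' := fun {a} ha z hz => by rw [Pi.inv_apply, ha z hz, inv_one]

theorem suppAt_normal (i : I) : (suppAt D i).Normal :=
  ⟨fun a ha g z hz => by simp [ha z hz]⟩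

theorem single_mem_suppAt [DecidableEq I] (i : I) (a : D i) : Pi.mulSingle i a ∈ suppAt D i :=
  fun _ hz => Pi.mulSingle_eq_of_ne hz a

theorem eq_single [DecidableEq I] {i : I} {f : ∀ i, D i} (h : f ∈ suppAt D i) :
    f = Pi.mulSingle i (f i) := by
  funext z
  by_cases hz : z = i
  · subst hz
    simp
  · rw [h z hz, Pi.mulSingle_eq_of_ne hz]

theorem suppAt_eq {i i' : I} {f : ∀ i, D i} (h : f ∈ suppAt D i) (h' : f ∈ suppAt D i')
    (hf : f ≠ 1) : i = i' := by
  by_contra hne
  apply hf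
  funext z
  by_cases hz : z = i
  · exact h' z (hz ▸ hne)
  · exact h z hz

theorem exists_factor (h : ∀ i, Tight (D i)) (h' : ∀ j, Tight (D' j))
    (φ : (∀ i, D i) ≃* (∀ j, D' j)) (i : I) : ∃ j, ∀ f ∈ suppAt D i, φ f ∈ suppAt D' j := by
  classical
  have := suppAt_normal (D := D) i
  let M : Subgroup (∀ j, D' j) := (suppAt D i).map φ.toMonoidHom
  have hM : M.Normal := this.map _ φ.surjective
  let ψ : D i →* ∀ j, D' j := φ.toMonoidHom.comp (MonoidHom.mulSingle D i)
  have hψ : Function.Injective ψ := φ.injective.comp (Pi.mulSingle_injective i)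
  have key : ∀ j, ∀ f ∈ suppAt D i, φ f j ≠ 1 → (suppAt D' j).comap ψ ≠ ⊥ := by
    intro j f hf hj hbot
    obtain ⟨g, hg, e⟩ := single_mem M j ((h' j).perf _ (proj_normal M j))
      (a := φ f j) ⟨φ f, ⟨f, hf, rfl⟩, rfl⟩
    have e1 : ψ (g i) = Pi.mulSingle j (φ f j) := by
      rw [← e]
      exact congrArg φ (eq_single hg).symm
    have h1 : g i ∈ (suppAt D' j).comap ψ := by
      rw [mem_comap, e1]
      exact single_mem_suppAt j _
    rw [hbot, mem_bot] at h1
    rw [h1, map_one] at e1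
    apply hj
    have := congrFun e1 j
    rw [Pi.mulSingle_eq_same] at this
    exact this.symm
  have := (h i).nt
  obtain ⟨a, ha⟩ := exists_ne (1 : D i)
  have h1 : ψ a ≠ 1 := fun e => ha (hψ (e.trans (map_one ψ).symm))
  obtain ⟨j, hj⟩ := Function.ne_iff.1 h1
  refine ⟨j, fun f hf z hz => ?_⟩
  by_contra hcon
  refine (h i).meet _ _ ((suppAt_normal j).comap ψ) ((suppAt_normal z).comap ψ)
    (key j _ (single_mem_suppAt i a) hj) (key z f hf hcon) ?_
  rw [eq_bot_iff]
  rintro b ⟨hb1, hb2⟩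
  rw [mem_bot]
  by_contra hb
  exact hz (suppAt_eq hb2 hb1 fun e => hb (hψ (e.trans (map_one ψ).symm)))

/-- Uniqueness of the factors. -/
theorem factors_unique (h : ∀ i, Tight (D i)) (h' : ∀ j, Tight (D' j))
    (φ : (∀ i, D i) ≃* (∀ j, D' j)) : ∃ σ : I ≃ J, ∀ i, Nonempty (D i ≃* D' (σ i)) := by
  classical
  choose σ hσ using exists_factor h h' φ
  choose τ hτ using exists_factor h' h φ.symm
  have e1 : ∀ i, τ (σ i) = i := by
    intro i
    have := (h i).nt
    obtain ⟨a, ha⟩ := exists_ne (1 : D i)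
    have a1 := hτ _ _ (hσ i _ (single_mem_suppAt i a))
    rw [φ.symm_apply_apply] at a1
    exact suppAt_eq a1 (single_mem_suppAt i a) (by simpa using ha)
  have e2 : ∀ j, σ (τ j) = j := by
    intro j
    have := (h' j).nt
    obtain ⟨a, ha⟩ := exists_ne (1 : D' j)
    have a1 := hσ _ _ (hτ j _ (single_mem_suppAt j a))
    rw [φ.apply_symm_apply] at a1
    exact suppAt_eq a1 (single_mem_suppAt j a) (by simpa using ha)
  refine ⟨⟨σ, τ, e1, e2⟩, fun i => ⟨MulEquiv.ofBijective ((Pi.evalMonoidHom D' (σ i)).comp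
    (φ.toMonoidHom.comp (MonoidHom.mulSingle D i))) ⟨?_, ?_⟩⟩⟩
  · rw [injective_iff_map_eq_one]
    intro a ha
    have a1 := eq_single (hσ i _ (single_mem_suppAt i a))
    have a2 : φ (Pi.mulSingle i a) (σ i) = 1 := ha
    rw [a2, Pi.mulSingle_one, EmbeddingLike.map_eq_one_iff] at a1
    simpa using a1
  · intro b
    have a1 := hτ _ _ (single_mem_suppAt (σ i) b)
    rw [e1] at a1
    refine ⟨φ.symm (Pi.mulSingle (σ i) b) i, ?_⟩
    show φ (Pi.mulSingle i (φ.symm (Pi.mulSingle (σ i) b) i)) (σ i) = b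
    rw [← eq_single a1, φ.apply_symm_apply, Pi.mulSingle_eq_same]

/-- A product of subgroups as a product of groups. -/
def piSub (N : ∀ i, Subgroup (D i)) : Subgroup.pi Set.univ N ≃* ∀ i, N i where
  toFun f := fun i => ⟨f.1 i, f.2 i trivial⟩
  invFun f := ⟨fun i => f i, fun i _ => (f i).2⟩
  left_inv _ := rfl
  right_inv _ := rfl
  map_mul' _ _ := rfl

/-- Flattening an iterated product. -/
def piSigma {K : I → Type} (E : ∀ i, K i → Type) [∀ i x, Group (E i x)] :
    (∀ i x, E i x) ≃* ∀ p : (Σ i, K i), E p.1 p.2 where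
  toFun f := fun p => f p.1 p.2
  invFun f := fun i x => f ⟨i, x⟩
  left_inv _ := rfl
  right_inv _ := rfl
  map_mul' _ _ := rfl

theorem pi_perfect [Finite I] {N : ∀ i, Subgroup (D i)} (h : ∀ i, ⁅N i, N i⁆ = N i) :
    ⁅Subgroup.pi Set.univ N, Subgroup.pi Set.univ N⁆ = Subgroup.pi Set.univ N := by
  rw [commutator_pi_pi_of_finite]
  simp only [h]

end

end Pool.Agent.Lib.MP_53c676_al
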