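import Pool.Agent.Lib.MP_53c676_al.AltWr
import Pool.Agent.Lib.MP_53c676_al.AltPi

/-!
Normal subgroups of the groups `altGroup k` and rigidity.
-/

namespace Pool.Agent.Lib.MP_53c676_al

open Equiv Subgroup
open scoped commutatorElement

/-- Sequences of degrees at least five. -/
abbrev Sq : Type := {k : ℕ → ℕ // ∀ n, 5 ≤ k n}

/-- The shift. -/
abbrev Sq.s (k : Sq) : Sq := ⟨sh k.1, fun n => k.2 (n + 1)⟩

/-- The group of a sequence. -/
abbrev Gam (k : Sq) : Type := altGroup k.1

/-- The embedding of the first level stabilizer. -/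
noncomputable def eH (k : Sq) : (Fin (k.1 0) → Gam k.s) →* Gam k :=
  ((secHom k.1).comp (piMap (altGroup (sh k.1)).subtype)).codRestrict _
    fun f => sec_mem k.2 fun x => (f x).2

/-- The rooted alternating group. -/
noncomputable def rH (k : Sq) : alternatingGroup (Fin (k.1 0)) →* Gam k :=
  ((rootHom k.1).comp (alternatingGroup (Fin (k.1 0))).subtype).codRestrict _
    fun τ => root_mem τ.2

variable {k : Sq}

theorem eH_val (f : Fin (k.1 0) → Gam k.s) : (eH k f).1 = secHom k.1 fun x => (f x).1 := rfl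

theorem rH_val (τ : alternatingGroup (Fin (k.1 0))) : (rH k τ).1 = rootHom k.1 τ.1 := rfl

theorem exists_er (g : Gam k) : ∃ f τ, g = eH k f * rH k τ := by
  obtain ⟨f, τ, h1, h2, e⟩ := exists_wr g.2
  exact ⟨fun x => ⟨f x, h1 x⟩, ⟨τ, h2⟩, Subtype.ext e⟩

theorem r_mul_e (τ : alternatingGroup (Fin (k.1 0))) (f : Fin (k.1 0) → Gam k.s) :
    rH k τ * eH k f = eH k (fun x => f (τ.1⁻¹ x)) * rH k τ :=
  Subtype.ext (root_mul_sec τ.1 fun x => (f x).1)

theorem r_conj_e (τ : alternatingGroup (Fin (k.1 0))) (f : Fin (k.1 0) → Gam k.s) :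
    rH k τ * eH k f * (rH k τ)⁻¹ = eH k fun x => f (τ.1⁻¹ x) := by
  rw [r_mul_e, mul_inv_cancel_right]

theorem eH_inj : Function.Injective (eH k) := fun f g h => by
  have h1 := (wr_inj (congrArg Subtype.val h)).2
  exact funext fun x => Subtype.ext (congrFun h1 x)

theorem eq_one_of_r {τ : alternatingGroup (Fin (k.1 0))} (h : rH k τ ∈ (eH k).range) : τ = 1 := by
  obtain ⟨f, hf⟩ := h
  exact Subtype.ext (wr_inj (congrArg Subtype.val hf)).1.symm

instance range_normal (k : Sq) : (eH k).range.Normal := ⟨by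
  rintro _ ⟨f, rfl⟩ g
  obtain ⟨f', τ, rfl⟩ := exists_er g
  refine ⟨f' * (fun x => f (τ.1⁻¹ x)) * f'⁻¹, ?_⟩
  rw [map_mul, map_mul, map_inv, ← r_conj_e]
  group⟩

theorem range_fi (k : Sq) : (eH k).range.FiniteIndex := by
  have : Finite (Gam k ⧸ (eH k).range) := by
    refine Finite.of_surjective (fun τ => (QuotientGroup.mk' (eH k).range) (rH k τ)) fun q => ?_
    obtain ⟨g, rfl⟩ := QuotientGroup.mk'_surjective _ q
    obtain ⟨f, τ, rfl⟩ := exists_er g
    refine ⟨τ, ?_⟩
    have : QuotientGroup.mk' (eH k).range (eH k f) = 1 := (QuotientGroup.eq_one_iff _).2 ⟨f, rfl⟩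
    rw [map_mul, this, one_mul]
  exact finiteIndex_of_finite_quotient

theorem alt_simple (k : Sq) : IsSimpleGroup (alternatingGroup (Fin (k.1 0))) :=
  alternatingGroup.isSimpleGroup (by simpa using k.2 0)

theorem range_ne_top (k : Sq) : (eH k).range ≠ ⊤ := by
  intro h
  have := alt_simple k
  obtain ⟨τ, hτ⟩ := exists_ne (1 : alternatingGroup (Fin (k.1 0)))
  exact hτ (eq_one_of_r (h ▸ mem_top _))

theorem gam_nontrivial (k : Sq) : Nontrivial (Gam k) := by
  by_contra h
  rw [not_nontrivial_iff_subsingleton] at h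
  exact range_ne_top k (Subsingleton.elim _ _)

theorem gam_infinite (k : Sq) : Infinite (Gam k) := by
  have key : ∀ (m : ℕ) (k : Sq), Finite (Gam k) → m ≤ Nat.card (Gam k) := by
    intro m
    induction m with
    | zero => exact fun _ _ => Nat.zero_le _
    | succ m ih =>
      intro k hk
      have h0 := k.2 0
      let x0 : Fin (k.1 0) := ⟨0, by omega⟩
      let ψ : Gam k.s →* Gam k :=
        (eH k).comp (MonoidHom.mulSingle (fun _ : Fin (k.1 0) => Gam k.s) x0)
      have hψ : Function.Injective ψ :=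
        eH_inj.comp (Pi.mulSingle_injective (M := fun _ : Fin (k.1 0) => Gam k.s) x0)
      have h1 := ih k.s (Finite.of_injective _ hψ)
      have h2 : Nat.card ψ.range = Nat.card (Gam k.s) :=
        (Nat.card_congr (MonoidHom.ofInjective hψ).toEquiv).symm
      have h3 : ψ.range ≠ ⊤ := fun h =>
        range_ne_top k (eq_top_iff.2 (h ▸ (by rintro _ ⟨a, rfl⟩; exact ⟨_, rfl⟩)))
      have h4 : Nat.card ψ.range ≠ Nat.card (Gam k) := fun h => h3 (eq_top_of_card_eq _ h)
      have h5 := card_le_card_group ψ.range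
      omega
  by_contra h
  rw [not_infinite_iff_finite] at h
  have := key (Nat.card (Gam k) + 1) k h
  omega

theorem gam_perfect (k : Sq) : ⁅(⊤ : Subgroup (Gam k)), (⊤ : Subgroup (Gam k))⁆ = ⊤ := by
  apply map_injective (altGroup k.1).subtype_injective
  rw [map_commutator, ← MonoidHom.range_eq_map, range_subtype, altGroup_perfect k.2]

/-- Level stabilizers. -/
noncomputable def St : ℕ → ∀ k : Sq, Subgroup (Gam k)
  | 0, _ => ⊤
  | j + 1, k => (Subgroup.pi Set.univ fun _ => St j k.s).map (eH k)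

theorem St_succ (j : ℕ) (k : Sq) :
    St (j + 1) k = (Subgroup.pi Set.univ fun _ => St j k.s).map (eH k) := rfl

theorem St_perfect (j : ℕ) : ∀ k : Sq, ⁅St j k, St j k⁆ = St j k := by
  induction j with
  | zero => exact gam_perfect
  | succ j ih =>
    intro k
    rw [St_succ, ← map_commutator, pi_perfect fun _ => ih k.s]

theorem St_fi (j : ℕ) : ∀ k : Sq, (St j k).FiniteIndex := by
  induction j with
  | zero => exact fun _ => fi_top
  | succ j ih => exact fun k => fi_map _ (fi_pi fun _ => ih k.s) (range_fi k)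

theorem St_succ_le (j : ℕ) : ∀ k : Sq, St (j + 1) k ≤ St j k := by
  induction j with
  | zero => exact fun _ => le_top
  | succ j ih =>
    intro k
    rw [St_succ (j + 1), St_succ j]
    exact map_mono fun f hf x hx => ih k.s (hf x hx)

theorem St_anti (k : Sq) : Antitone fun j => St j k :=
  antitone_nat_of_succ_le fun j => St_succ_le j k

theorem gam_nil (g : Gam k) : g.1 (vnil k.1) = vnil k.1 := by
  obtain ⟨f, τ, rfl⟩ := exists_er g
  simp [eH_val, rH_val]

theorem St_fix (j : ℕ) : ∀ (k : Sq) (g : Gam k), g ∈ St j k → ∀ v : Vertex k.1,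
    v.1.length ≤ j → g.1 v = v := by
  induction j with
  | zero =>
    intro k g _ v hv
    rcases vcases v with rfl | ⟨x, w, rfl⟩
    · exact gam_nil g
    · simp at hv
  | succ j ih =>
    rintro k _ ⟨f, hf, rfl⟩ v hv
    rcases vcases v with rfl | ⟨x, w, rfl⟩
    · exact gam_nil _
    · rw [eH_val, secHom_cons, ih k.s (f x) (hf x trivial) w (by simpa using hv)]

theorem exists_not_le {N : Subgroup (Gam k)} (h : N ≠ ⊥) : ∃ j, ¬ N ≤ St j k := by
  by_contra hcon
  push Not at hcon
  refine h (eq_bot_iff.2 fun g hg => mem_bot.2 (Subtype.ext (Equiv.ext fun v => ?_)))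
  exact St_fix _ k g (hcon _ hg) v le_rfl

theorem alt_trans (k : Sq) (x y : Fin (k.1 0)) :
    ∃ τ : alternatingGroup (Fin (k.1 0)), τ.1 x = y := by
  have h0 := k.2 0
  have := alternatingGroup.isPretransitive_of_three_le_card (Fin (k.1 0))
    (by rw [Nat.card_fin]; omega)
  exact MulAction.exists_smul_eq (alternatingGroup (Fin (k.1 0))) x y

/-- A normal subgroup that moves the first level is everything. -/
theorem eq_top_of_not_le (N : Subgroup (Gam k)) [hN : N.Normal] (h : ¬ N ≤ (eH k).range) :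
    N = ⊤ := by
  obtain ⟨g, hg, hg'⟩ := SetLike.not_le_iff_exists.1 h
  obtain ⟨f, τ, rfl⟩ := exists_er g
  have hτ : τ ≠ 1 := by
    rintro rfl
    exact hg' ⟨f, by simp⟩
  obtain ⟨x, hx⟩ : ∃ x, τ.1⁻¹ x ≠ x := by
    by_contra hcon
    push Not at hcon
    exact hτ (Subtype.ext (inv_eq_one.1 (Equiv.ext hcon)))
  let M : Subgroup (Fin (k.1 0) → Gam k.s) := N.comap (eH k)
  have hx1 : M.map (Pi.evalMonoidHom _ x) = ⊤ := by
    rw [eq_top_iff]
    intro a _
    refine ⟨f * (fun z => (Pi.mulSingle x a⁻¹ : Fin (k.1 0) → Gam k.s) (τ.1⁻¹ z)) * f⁻¹ *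
      (Pi.mulSingle x a⁻¹)⁻¹, ?_, ?_⟩
    · show eH k _ ∈ N
      rw [map_mul, map_mul, map_mul, map_inv, map_inv, ← r_conj_e]
      have := mul_mem hg (hN.conj_mem _ (inv_mem hg) (eH k (Pi.mulSingle x a⁻¹)))
      convert this using 1
      group
    · simp only [Pi.evalMonoidHom_apply, Pi.mul_apply, Pi.inv_apply, Pi.mulSingle_eq_of_ne hx,
        Pi.mulSingle_eq_same]
      group
  have hs : ∀ a, Pi.mulSingle x a ∈ M := fun a =>
    single_mem M x (by rw [hx1]; exact gam_perfect _) (by rw [hx1]; trivial)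
  have hr : (eH k).range ≤ N := by
    rintro _ ⟨f', rfl⟩
    refine pi_mem_of_mulSingle_mem (H := M) f' fun y => ?_
    obtain ⟨σ, hσ⟩ := alt_trans k x y
    have a1 := hN.conj_mem _ (hs (f' y)) (rH k σ)
    rw [r_conj_e] at a1
    have e : (fun z => (Pi.mulSingle x (f' y) : Fin (k.1 0) → Gam k.s) (σ.1⁻¹ z)) =
        Pi.mulSingle y (f' y) := by
      funext z
      simp only [Pi.mulSingle_apply, Perm.inv_eq_iff_eq, hσ]
    rw [e] at a1
    exact a1
  have hτN : rH k τ ∈ N := (mul_mem_cancel_left (hr ⟨f, rfl⟩)).1 hg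
  have := alt_simple k
  have ht : N.comap (rH k) = ⊤ :=
    (IsSimpleGroup.eq_bot_or_eq_top_of_normal _ inferInstance).resolve_left fun hb =>
      hτ (mem_bot.1 (hb ▸ (mem_comap.2 hτN)))
  rw [eq_top_iff]
  intro g _
  obtain ⟨f', σ, rfl⟩ := exists_er g
  exact mul_mem (hr ⟨f', rfl⟩) (mem_comap.1 (ht ▸ mem_top σ))

theorem normal_eq_St_aux (j : ℕ) : ∀ (k : Sq) (N : Subgroup (Gam k)), N.Normal → ¬ N ≤ St j k →
    ∃ i, N = St i k := by
  induction j with
  | zero => exact fun k N _ h => absurd le_top h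
  | succ j ih =>
    intro k N hN h
    by_cases hr : N ≤ (eH k).range
    swap
    · exact ⟨0, eq_top_of_not_le N hr⟩
    let M : Subgroup (Fin (k.1 0) → Gam k.s) := N.comap (eH k)
    have hM : M.map (eH k) = N := map_comap_eq_self hr
    obtain ⟨x, hx⟩ : ∃ x, ¬ M.map (Pi.evalMonoidHom _ x) ≤ St j k.s := by
      by_contra hcon
      push Not at hcon
      apply h
      rw [← hM, St_succ]
      exact map_mono fun f hf x _ => hcon x ⟨f, hf, rfl⟩
    obtain ⟨i, hi⟩ := ih k.s _ (proj_normal M x) hx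
    have hall : ∀ y z, M.map (Pi.evalMonoidHom _ y) ≤ M.map (Pi.evalMonoidHom _ z) := by
      rintro y z _ ⟨f, hf, rfl⟩
      obtain ⟨σ, hσ⟩ := alt_trans k y z
      have a1 := hN.conj_mem _ hf (rH k σ)
      rw [r_conj_e] at a1
      refine ⟨_, a1, ?_⟩
      show f (σ.1⁻¹ z) = f y
      rw [← hσ, ← Perm.mul_apply, inv_mul_cancel, Perm.one_apply]
    have hy : ∀ y, M.map (Pi.evalMonoidHom _ y) = St i k.s := fun y =>
      (le_antisymm (hall y x) (hall x y)).trans hi
    refine ⟨i + 1, ?_⟩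
    rw [← hM, St_succ]
    congr 1
    refine le_antisymm (fun f hf y _ => hy y ▸ ⟨f, hf, rfl⟩) fun f hf => ?_
    exact pi_mem_of_mulSingle_mem f fun y =>
      single_mem M y (by rw [hy]; exact St_perfect _ _) (by rw [hy]; exact hf y trivial)

/-- The non-trivial normal subgroups are the level stabilizers. -/
theorem normal_eq_St (N : Subgroup (Gam k)) (hN : N.Normal) (h : N ≠ ⊥) : ∃ i, N = St i k := by
  obtain ⟨j, hj⟩ := exists_not_le h
  exact normal_eq_St_aux j k N hN hj

theorem ne_bot_of_fi {A : Type*} [Group A] [Infinite A] {N : Subgroup A} (h : N.FiniteIndex) :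
    N ≠ ⊥ := fun e => not_fi_bot (e ▸ h)

theorem gam_tight (k : Sq) : Tight (Gam k) where
  nt := gam_nontrivial k
  perf N hN := by
    by_cases h : N = ⊥
    · simp [h]
    · obtain ⟨i, rfl⟩ := normal_eq_St N hN h
      exact St_perfect i k
  meet M N hM hN h h' := by
    obtain ⟨i, rfl⟩ := normal_eq_St M hM h
    obtain ⟨j, rfl⟩ := normal_eq_St N hN h'
    have := gam_infinite k
    exact ne_bot_of_fi (fi_inf (St_fi i k) (St_fi j k))

theorem gam_ji (k : Sq) : IsJustInfinite (Gam k) := by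
  refine ⟨gam_infinite k, fun N hN h => ?_⟩
  obtain ⟨i, rfl⟩ := normal_eq_St N hN h
  have := St_fi i k
  infer_instance

/-- The size of a level. -/
def lv (k : Sq) (j : ℕ) : ℕ := ∏ i ∈ Finset.range j, k.1 i

theorem iter_val (j : ℕ) : ∀ (k : Sq) (i : ℕ), (Sq.s^[j] k).1 i = k.1 (i + j) := by
  induction j with
  | zero => exact fun _ _ => rfl
  | succ j ih => exact fun k i => ih k.s i

theorem lv_add (k : Sq) (n j : ℕ) : lv k (n + j) = lv k n * lv (Sq.s^[n] k) j := by
  unfold lv
  rw [Finset.prod_range_add]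
  congr 1
  exact Finset.prod_congr rfl fun i _ => by rw [iter_val, add_comm]

theorem lv_pos (k : Sq) (j : ℕ) : 0 < lv k j :=
  Finset.prod_pos fun i _ => lt_of_lt_of_le (by norm_num) (k.2 i)

theorem St_iso (j : ℕ) : ∀ k : Sq, ∃ (I : Type) (_ : Finite I), Nat.card I = lv k j ∧
    Nonempty (St j k ≃* (I → Gam (Sq.s^[j] k))) := by
  induction j with
  | zero =>
    intro k
    exact ⟨Unit, inferInstance, by simp [lv],
      ⟨topEquiv.trans (MulEquiv.funUnique Unit (Gam k)).symm⟩⟩
  | succ j ih =>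
    intro k
    obtain ⟨I, hI, hc, ⟨e⟩⟩ := ih k.s
    refine ⟨Σ _ : Fin (k.1 0), I, inferInstance, ?_, ⟨((equivMapOfInjective _ _ eH_inj).symm.trans
      ((piSub _).trans (MulEquiv.piCongrRight fun _ => e))).trans (piSigma _)⟩⟩
    rw [Nat.card_sigma, Finset.sum_const, hc, add_comm j 1, lv_add]
    simp [lv]

theorem map_range_le {k k' : Sq} (φ : Gam k ≃* Gam k') :
    (eH k).range.map φ.toMonoidHom ≤ (eH k').range := by
  by_contra h
  have := (range_normal k).map φ.toMonoidHom φ.surjective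
  have h1 := eq_top_of_not_le _ h
  apply range_ne_top k
  apply map_injective (f := φ.toMonoidHom) φ.injective
  rw [h1, map_top_of_surjective _ φ.surjective]

theorem rigid_step {k k' : Sq} (φ : Gam k ≃* Gam k') :
    k.1 0 = k'.1 0 ∧ Nonempty (Gam k.s ≃* Gam k'.s) := by
  have e : (eH k).range.map φ.toMonoidHom = (eH k').range := by
    refine le_antisymm (map_range_le φ) fun g hg => ?_
    exact ⟨φ.symm g, map_range_le φ.symm ⟨g, hg, rfl⟩, φ.apply_symm_apply g⟩
  obtain ⟨σ, hσ⟩ := factors_unique (fun _ => gam_tight k.s) (fun _ => gam_tight k'.s)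
    ((MonoidHom.ofInjective (eH_inj (k := k))).trans
      (((equivMapOfInjective _ φ.toMonoidHom φ.injective).trans (MulEquiv.subgroupCongr e)).trans
        (MonoidHom.ofInjective (eH_inj (k := k'))).symm))
  have h0 := k.2 0
  exact ⟨Fin.equiv_iff_eq.1 ⟨σ⟩, hσ ⟨0, by omega⟩⟩

/-- The group determines the sequence. -/
theorem rigid {k k' : Sq} (h : Nonempty (Gam k ≃* Gam k')) : k = k' := by
  have key : ∀ (i : ℕ) (k k' : Sq), Nonempty (Gam k ≃* Gam k') → k.1 i = k'.1 i := by
    intro i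
    induction i with
    | zero => exact fun k k' ⟨φ⟩ => (rigid_step φ).1
    | succ i ih => exact fun k k' ⟨φ⟩ => ih k.s k'.s (rigid_step φ).2
  exact Subtype.ext (funext fun i => key i k k' h)

end Pool.Agent.Lib.MP_53c676_al
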