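import Pool.Agent.Lib.MP_53c676_al.Defs

-- part Pool.Agent.Lib.MP_53c676_al.Span
section

/-!
Virtual quotients and virtual isomorphisms as spans.
-/

namespace Pool.Agent.Lib.MP_53c676_al

universe u

open Subgroup

theorem fi_comap {A B : Type*} [Group A] [Group B] (f : A →* B) {U : Subgroup B}
    (h : U.FiniteIndex) : (U.comap f).FiniteIndex := by
  refine ⟨?_⟩
  rw [index_comap]
  exact fun h0 => h.index_ne_zero (index_eq_zero_of_relIndex_eq_zero h0)

theorem fi_map {A B : Type*} [Group A] [Group B] (f : A →* B) {U : Subgroup A}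
    (h : U.FiniteIndex) (hf : f.range.FiniteIndex) : (U.map f).FiniteIndex := by
  refine ⟨?_⟩
  rw [index_map]
  have := h
  exact mul_ne_zero (finiteIndex_of_le (le_sup_left : U ≤ U ⊔ f.ker)).index_ne_zero
    hf.index_ne_zero

theorem fi_le {A : Type*} [Group A] {U V : Subgroup A} (h : U.FiniteIndex) (hle : U ≤ V) :
    V.FiniteIndex := by
  have := h
  exact finiteIndex_of_le hle

theorem fi_inf {A : Type*} [Group A] {U V : Subgroup A} (h : U.FiniteIndex)
    (h' : V.FiniteIndex) : (U ⊓ V).FiniteIndex := by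
  have := h
  have := h'
  infer_instance

theorem fi_pi {ι A : Type*} [Finite ι] [Group A] {U : ι → Subgroup A}
    (h : ∀ i, (U i).FiniteIndex) : (Subgroup.pi Set.univ U).FiniteIndex := by
  have := Fintype.ofFinite ι
  refine ⟨?_⟩
  rw [index_pi]
  exact Finset.prod_ne_zero_iff.mpr fun i _ => (h i).index_ne_zero

theorem fi_top {A : Type*} [Group A] : (⊤ : Subgroup A).FiniteIndex := inferInstance

theorem fi_range_of_surj {A B : Type*} [Group A] [Group B] (f : A →* B)
    (hf : Function.Surjective f) : f.range.FiniteIndex := by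
  rw [MonoidHom.range_eq_top.mpr hf]
  exact fi_top

theorem not_fi_bot {A : Type*} [Group A] [Infinite A] : ¬ (⊥ : Subgroup A).FiniteIndex := by
  intro h
  have := h.index_ne_zero
  rw [index_bot, Nat.card_eq_zero_of_infinite] at this
  exact this rfl

/-- `B` is a virtual quotient of `A`. -/
def VQ (A B : Type u) [Group A] [Group B] : Prop :=
  ∃ (C : Type u) (_ : Group C) (p : C →* A) (q : C →* B),
    Function.Injective p ∧ p.range.FiniteIndex ∧ q.range.FiniteIndex

/-- `A` and `B` are virtually isomorphic. -/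
def VE (A B : Type u) [Group A] [Group B] : Prop :=
  ∃ (C : Type u) (_ : Group C) (p : C →* A) (q : C →* B),
    Function.Injective p ∧ Function.Injective q ∧ p.range.FiniteIndex ∧ q.range.FiniteIndex

section
variable {A B D : Type u} [Group A] [Group B] [Group D]

theorem VE.symm (h : VE A B) : VE B A := by
  obtain ⟨C, _, p, q, hp, hq, hp', hq'⟩ := h
  exact ⟨C, inferInstance, q, p, hq, hp, hq', hp'⟩

theorem VE.vq (h : VE A B) : VQ A B := by
  obtain ⟨C, _, p, q, hp, _, hp', hq'⟩ := h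
  exact ⟨C, inferInstance, p, q, hp, hp', hq'⟩

/-- The fibre product of two homomorphisms. -/
def pb {C₁ C₂ E : Type u} [Group C₁] [Group C₂] [Group E] (f : C₁ →* E) (g : C₂ →* E) :
    Subgroup (C₁ × C₂) :=
  MonoidHom.eqLocus (f.comp (MonoidHom.fst C₁ C₂)) (g.comp (MonoidHom.snd C₁ C₂))

theorem mem_pb {C₁ C₂ E : Type u} [Group C₁] [Group C₂] [Group E] {f : C₁ →* E} {g : C₂ →* E}
    {x : C₁ × C₂} : x ∈ pb f g ↔ f x.1 = g x.2 := Iff.rfl

/-- First projection of the fibre product. -/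
def pb1 {C₁ C₂ E : Type u} [Group C₁] [Group C₂] [Group E] (f : C₁ →* E) (g : C₂ →* E) :
    pb f g →* C₁ := (MonoidHom.fst C₁ C₂).comp (pb f g).subtype

/-- Second projection of the fibre product. -/
def pb2 {C₁ C₂ E : Type u} [Group C₁] [Group C₂] [Group E] (f : C₁ →* E) (g : C₂ →* E) :
    pb f g →* C₂ := (MonoidHom.snd C₁ C₂).comp (pb f g).subtype

section pbl
variable {C₁ C₂ E : Type u} [Group C₁] [Group C₂] [Group E] (f : C₁ →* E) (g : C₂ →* E)

theorem pb_comm (x : pb f g) : f (pb1 f g x) = g (pb2 f g x) := x.2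

theorem pb1_range : (pb1 f g).range = g.range.comap f := by
  ext x
  constructor
  · rintro ⟨y, rfl⟩
    exact ⟨pb2 f g y, (pb_comm f g y).symm⟩
  · rintro ⟨y, hy⟩
    exact ⟨⟨(x, y), mem_pb.mpr hy.symm⟩, rfl⟩

theorem pb2_range : (pb2 f g).range = f.range.comap g := by
  ext x
  constructor
  · rintro ⟨y, rfl⟩
    exact ⟨pb1 f g y, pb_comm f g y⟩
  · rintro ⟨y, hy⟩
    exact ⟨⟨(y, x), mem_pb.mpr hy⟩, rfl⟩

theorem pb1_inj (hg : Function.Injective g) : Function.Injective (pb1 f g) := by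
  intro x y h
  have h2 : pb2 f g x = pb2 f g y := by
    apply hg
    rw [← pb_comm, ← pb_comm, h]
  exact Subtype.ext (Prod.ext h h2)

theorem pb2_inj (hf : Function.Injective f) : Function.Injective (pb2 f g) := by
  intro x y h
  have h2 : pb1 f g x = pb1 f g y := by
    apply hf
    rw [pb_comm, pb_comm, h]
  exact Subtype.ext (Prod.ext h2 h)

end pbl

theorem fi_range_comp {X Y Z : Type*} [Group X] [Group Y] [Group Z] (f : X →* Y) (g : Y →* Z)
    (hf : f.range.FiniteIndex) (hg : g.range.FiniteIndex) : (g.comp f).range.FiniteIndex := by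
  rw [MonoidHom.range_comp]
  exact fi_map g hf hg

theorem VQ.trans (h : VQ A B) (h' : VQ B D) : VQ A D := by
  obtain ⟨C, _, p, q, hp, hp', hq'⟩ := h
  obtain ⟨C', _, r, s, hr, hr', hs'⟩ := h'
  refine ⟨pb q r, inferInstance, p.comp (pb1 q r), s.comp (pb2 q r), hp.comp (pb1_inj q r hr),
    fi_range_comp _ _ ?_ hp', fi_range_comp _ _ ?_ hs'⟩
  · rw [pb1_range]; exact fi_comap _ hr'
  · rw [pb2_range]; exact fi_comap _ hq'

theorem VE.trans (h : VE A B) (h' : VE B D) : VE A D := by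
  obtain ⟨C, _, p, q, hp, hq, hp', hq'⟩ := h
  obtain ⟨C', _, r, s, hr, hs, hr', hs'⟩ := h'
  refine ⟨pb q r, inferInstance, p.comp (pb1 q r), s.comp (pb2 q r), hp.comp (pb1_inj q r hr),
    hs.comp (pb2_inj q r hq), fi_range_comp _ _ ?_ hp', fi_range_comp _ _ ?_ hs'⟩
  · rw [pb1_range]; exact fi_comap _ hr'
  · rw [pb2_range]; exact fi_comap _ hq'

theorem VE.of_inj (f : A →* B) (hf : Function.Injective f) (hf' : f.range.FiniteIndex) :
    VE A B :=
  ⟨A, inferInstance, MonoidHom.id A, f, fun _ _ h => h, hf,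
    fi_range_of_surj _ fun x => ⟨x, rfl⟩, hf'⟩

theorem VE.of_equiv (e : A ≃* B) : VE A B :=
  VE.of_inj e.toMonoidHom e.injective (fi_range_of_surj _ e.surjective)

theorem VE.refl : VE A A := VE.of_equiv (MulEquiv.refl A)

theorem VQ.of_hom (f : A →* B) (hf' : f.range.FiniteIndex) : VQ A B :=
  ⟨A, inferInstance, MonoidHom.id A, f, fun _ _ h => h,
    fi_range_of_surj _ fun x => ⟨x, rfl⟩, hf'⟩

theorem VE.subgroup (U : Subgroup A) (h : U.FiniteIndex) : VE U A :=
  VE.of_inj U.subtype U.subtype_injective (by rwa [range_subtype])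

theorem VQ.finite (h : VQ A B) [Finite A] : Finite B := by
  obtain ⟨C, _, p, q, hp, _, hq'⟩ := h
  have : Finite C := Finite.of_injective p hp
  refine (finite_iff_finite_and_finiteIndex q.range).mpr ⟨?_, hq'⟩
  exact Finite.of_surjective q.rangeRestrict q.rangeRestrict_surjective

/-- Componentwise map on powers. -/
def piMap {X : Type} {C E : Type u} [Group C] [Group E] (f : C →* E) : (X → C) →* (X → E) :=
  f.compLeft X

theorem piMap_apply {X : Type} {C E : Type u} [Group C] [Group E] (f : C →* E) (y : X → C)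
    (x : X) : piMap f y x = f (y x) := rfl

theorem piMap_inj {X : Type} {C E : Type u} [Group C] [Group E] (f : C →* E)
    (hf : Function.Injective f) : Function.Injective (piMap (X := X) f) := by
  intro y z h
  funext x
  exact hf (congrFun h x)

theorem piMap_fi {X : Type} [Finite X] {C E : Type u} [Group C] [Group E] (f : C →* E)
    (hf : f.range.FiniteIndex) : (piMap (X := X) f).range.FiniteIndex := by
  refine fi_le (fi_pi (ι := X) (U := fun _ => f.range) fun _ => hf) ?_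
  intro y hy
  have : ∀ x, ∃ c, f c = y x := fun x => hy x trivial
  choose c hc using this
  exact ⟨c, funext hc⟩

theorem VE.pi (X : Type) [Finite X] (h : VE A B) : VE (X → A) (X → B) := by
  obtain ⟨C, _, p, q, hp, hq, hp', hq'⟩ := h
  exact ⟨X → C, inferInstance, piMap p, piMap q, piMap_inj p hp, piMap_inj q hq,
    piMap_fi p hp', piMap_fi q hq'⟩

/-- Restriction along a map of index sets. -/
def resHom {X Y : Type} (A : Type u) [Group A] (e : X → Y) : (Y → A) →* (X → A) where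
  toFun y := fun x => y (e x)
  map_one' := rfl
  map_mul' _ _ := rfl

theorem VQ.of_emb {X Y : Type} (e : X → Y) (he : Function.Injective e) :
    VQ (Y → A) (X → A) := by
  refine VQ.of_hom (resHom A e) (fi_range_of_surj _ ?_)
  intro z
  refine ⟨Function.extend e z 1, ?_⟩
  funext x
  exact he.extend_apply z 1 x

theorem VE.of_index_equiv {X Y : Type} (e : X ≃ Y) : VE (Y → A) (X → A) := by
  refine VE.of_inj (resHom A e) ?_ (fi_range_of_surj _ ?_)
  · intro y z h
    funext t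
    have := congrFun h (e.symm t)
    simpa [resHom] using this
  · intro z
    refine ⟨fun t => z (e.symm t), ?_⟩
    funext x
    simp [resHom]

theorem VE.of_card_eq {X Y : Type} [Finite X] [Finite Y] (h : Nat.card X = Nat.card Y) :
    VE (Y → A) (X → A) :=
  VE.of_index_equiv (Finite.card_eq.mp h).some

theorem VQ.of_card_le {X Y : Type} [Finite X] [Finite Y] (h : Nat.card X ≤ Nat.card Y) :
    VQ (Y → A) (X → A) := by
  have := Fintype.ofFinite X
  have := Fintype.ofFinite Y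
  rw [Nat.card_eq_fintype_card, Nat.card_eq_fintype_card] at h
  obtain ⟨e⟩ := Function.Embedding.nonempty_of_card_le h
  exact VQ.of_emb e e.injective

theorem VE.curry (X Y : Type) : VE (X × Y → A) (X → Y → A) :=
  VE.of_equiv
    { toFun := fun y a b => y (a, b)
      invFun := fun y c => y c.1 c.2
      left_inv := fun _ => rfl
      right_inv := fun _ => rfl
      map_mul' := fun _ _ => rfl }

theorem VE.unit : VE (Unit → A) A :=
  VE.of_equiv
    { toFun := fun y => y ()
      invFun := fun a _ => a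
      left_inv := fun _ => rfl
      right_inv := fun _ => rfl
      map_mul' := fun _ _ => rfl }

theorem VQ.eval {X : Type} (x : X) : VQ (X → A) A :=
  VQ.of_hom (Pi.evalMonoidHom (fun _ : X => A) x)
    (fi_range_of_surj _ fun a => ⟨fun _ => a, rfl⟩)

theorem absComm_iff : AbsComm A B ↔ VE A B := by
  constructor
  · rintro ⟨A₀, B₀, hA, hB, ⟨e⟩⟩
    exact (VE.subgroup A₀ hA).symm.trans ((VE.of_equiv e).trans (VE.subgroup B₀ hB))
  · rintro ⟨C, _, p, q, hp, hq, hp', hq'⟩
    exact ⟨p.range, q.range, hp', hq',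
      ⟨(MonoidHom.ofInjective hp).symm.trans (MonoidHom.ofInjective hq)⟩⟩

theorem VQ.larger (h : VQ A B) : Larger A B := by
  obtain ⟨C, _, p, q, hp, hp', hq'⟩ := h
  refine ⟨p.range, q.range, ⊥, inferInstance, hp', hq', inferInstance,
    (QuotientGroup.mk' ⊥).comp (q.rangeRestrict.comp
      (MonoidHom.ofInjective hp).symm.toMonoidHom), ?_⟩
  exact (QuotientGroup.mk'_surjective _).comp
    (q.rangeRestrict_surjective.comp (MonoidHom.ofInjective hp).symm.surjective)

end

/-- The product lemma: a virtual quotient of a power `X → B` whose kernel is, in each coordinate,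
either trivial or of finite index, is virtually the power over the first kind of coordinates. -/
theorem prod_lemma {X : Type} [Finite X] [DecidableEq X] {B C H : Type u} [Group B] [Group C]
    [Group H] (p : C →* (X → B)) (q : C →* H) (hp : Function.Injective p)
    (hp' : p.range.FiniteIndex) (hq' : q.range.FiniteIndex) (S : X → Prop)
    (hfree : ∀ c, q c = 1 → ∀ x, S x → p c x = 1)
    (hfull : ∀ x, ¬ S x →
      ((q.ker.map p).comap (MonoidHom.mulSingle (fun _ : X => B) x)).FiniteIndex) :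
    VE ({x // S x} → B) H := by
  classical
  let C' : Subgroup C :=
    { carrier := {c | ∀ x, ¬ S x → p c x = 1}
      one_mem' := by intro x _; simp
      mul_mem' := by
        intro a b ha hb x hx
        simp [ha x hx, hb x hx]
      inv_mem' := by
        intro a ha x hx
        simp [ha x hx] }
  let U : X → Subgroup B := fun x =>
    if S x then p.range.comap (MonoidHom.mulSingle (fun _ : X => B) x)
    else (q.ker.map p).comap (MonoidHom.mulSingle (fun _ : X => B) x)
  have hU : ∀ x, (U x).FiniteIndex := by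
    intro x
    by_cases hx : S x
    · simp only [U, hx, if_true]; exact fi_comap _ hp'
    · simp only [U, hx, if_false]; exact hfull x hx
  refine ⟨C', inferInstance, (resHom B Subtype.val).comp (p.comp C'.subtype), q.comp C'.subtype,
    ?_, ?_, ?_, ?_⟩
  · rw [injective_iff_map_eq_one]
    intro c hc
    apply Subtype.ext
    apply hp
    funext x
    by_cases hx : S x
    · have := congrFun hc ⟨x, hx⟩
      simpa [resHom] using this
    · have := c.2 x hx
      simpa using this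
  · rw [injective_iff_map_eq_one]
    intro c hc
    apply Subtype.ext
    apply hp
    funext x
    by_cases hx : S x
    · have := hfree c.1 hc x hx
      simpa using this
    · have := c.2 x hx
      simpa using this
  · refine fi_le (fi_pi (ι := {x // S x}) (U := fun x => U x.1) fun x => hU x.1) ?_
    intro y hy
    let z : X → B := fun x => if h : S x then y ⟨x, h⟩ else 1
    have hz : z ∈ p.range := by
      apply Subgroup.pi_mem_of_mulSingle_mem
      intro x
      by_cases hx : S x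
      · have h1 : y ⟨x, hx⟩ ∈ U x := hy ⟨x, hx⟩ trivial
        simp only [U, hx, if_true] at h1
        simpa [z, hx] using h1
      · simp only [z, hx, dif_neg, not_false_eq_true, Pi.mulSingle_one]
        exact one_mem _
    obtain ⟨c, hc⟩ := hz
    refine ⟨⟨c, ?_⟩, ?_⟩
    · intro x hx
      simp [hc, z, hx]
    · funext x
      simp [resHom, hc, z, x.2]
  · refine fi_le (fi_map q (fi_comap p (fi_pi hU)) hq') ?_
    rintro _ ⟨c, hc, rfl⟩
    let z : X → B := fun x => if S x then 1 else p c x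
    have hz : z ∈ q.ker.map p := by
      apply Subgroup.pi_mem_of_mulSingle_mem
      intro x
      by_cases hx : S x
      · simp only [z, hx, if_true, Pi.mulSingle_one]
        exact one_mem _
      · have h1 : p c x ∈ U x := hc x trivial
        simp only [U, hx, if_false] at h1
        simpa [z, hx] using h1
    obtain ⟨c', hc', hc''⟩ := hz
    refine ⟨⟨c * c'⁻¹, ?_⟩, ?_⟩
    · intro x hx
      simp [hc'', z, hx]
    · have : q c' = 1 := hc'
      simp [this]

end Pool.Agent.Lib.MP_53c676_al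
end

-- part Pool.Agent.Lib.MP_53c676_al.Tree
section

/-!
Basic facts on groups acting on the rooted tree.
-/

namespace Pool.Agent.Lib.MP_53c676_al

universe u

open Subgroup

section tree
variable {k : ℕ → ℕ}

/-- Truncation of a vertex. -/
def tk (n : ℕ) (v : Vertex k) : Vertex k :=
  ⟨v.1.take n, by
    intro i h
    rw [List.getElem_take]
    exact v.2 i (by rw [List.length_take] at h; omega)⟩

theorem tk_val (n : ℕ) (v : Vertex k) : (tk n v).1 = v.1.take n := rfl

theorem tk_len (n : ℕ) (v : Vertex k) (h : n ≤ v.1.length) : (tk n v).1.length = n := by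
  rw [tk_val, List.length_take]; omega

theorem tk_pre (n : ℕ) (v : Vertex k) : (tk n v).1 <+: v.1 := List.take_prefix _ _

theorem tk_of_le (n : ℕ) (v : Vertex k) (h : v.1.length ≤ n) : tk n v = v :=
  Subtype.ext (List.take_of_length_le h)

theorem pre_iff_tk {u v : Vertex k} : u.1 <+: v.1 ↔ tk u.1.length v = u := by
  rw [List.prefix_iff_eq_take]
  constructor
  · intro h; exact Subtype.ext h.symm
  · intro h; exact (congrArg Subtype.val h).symm

theorem pre_eq_of_len {u w v : Vertex k} (hu : u.1 <+: v.1) (hw : w.1 <+: v.1)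
    (h : u.1.length = w.1.length) : u = w := by
  rw [pre_iff_tk] at hu hw
  rw [← hu, ← hw, h]

theorem isChild_tk (m : ℕ) (v : Vertex k) (h : v.1.length = m + 1) : IsChild (tk m v) v := by
  refine ⟨v.1[m], ?_⟩
  rw [tk_val, List.take_append_getElem (by omega), List.take_of_length_le (by omega)]

theorem aut_aux {σ : Equiv.Perm (Vertex k)} (hσ : IsTreeAut σ) (m : ℕ) :
    ∀ v : Vertex k, v.1.length = m →
      (σ v).1.length = m ∧ ∀ n, σ (tk n v) = tk n (σ v) := by
  induction m with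
  | zero =>
    intro v hv
    have h0 : (σ v).1.length = 0 := by
      by_contra hne
      obtain ⟨j, hj⟩ := Nat.exists_eq_succ_of_ne_zero hne
      have h1 := isChild_tk j (σ v) hj
      rw [← σ.apply_symm_apply (tk j (σ v)), hσ] at h1
      obtain ⟨x, hx⟩ := h1
      have := congrArg List.length hx
      simp at this
      omega
    refine ⟨h0, fun n => ?_⟩
    rw [tk_of_le n v (by omega), tk_of_le n (σ v) (by omega)]
  | succ m ih =>
    intro v hv
    have h1 := isChild_tk m v hv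
    obtain ⟨hl, ht⟩ := ih (tk m v) (tk_len m v (by omega))
    obtain ⟨y, hy⟩ := (hσ _ _).mpr h1
    have hlen : (σ v).1.length = m + 1 := by rw [hy]; simp [hl]
    refine ⟨hlen, fun n => ?_⟩
    by_cases hn : n ≤ m
    · have e1 : tk n v = tk n (tk m v) := by
        apply Subtype.ext
        simp only [tk_val, List.take_take, min_eq_left hn]
      rw [e1, ht n]
      apply Subtype.ext
      simp only [tk_val]
      rw [hy, List.take_append_of_le_length (by rw [hl]; exact hn)]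
    · rw [tk_of_le n v (by omega), tk_of_le n (σ v) (by omega)]

theorem aut_len {σ : Equiv.Perm (Vertex k)} (hσ : IsTreeAut σ) (v : Vertex k) :
    (σ v).1.length = v.1.length := (aut_aux hσ _ v rfl).1

theorem aut_tk {σ : Equiv.Perm (Vertex k)} (hσ : IsTreeAut σ) (n : ℕ) (v : Vertex k) :
    σ (tk n v) = tk n (σ v) := (aut_aux hσ _ v rfl).2 n

theorem aut_pre {σ : Equiv.Perm (Vertex k)} (hσ : IsTreeAut σ) {u v : Vertex k}
    (h : u.1 <+: v.1) : (σ u).1 <+: (σ v).1 := by
  rw [pre_iff_tk] at h ⊢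
  rw [aut_len hσ, ← aut_tk hσ, h]

/-- Levels of the tree. -/
abbrev Lv (k : ℕ → ℕ) (n : ℕ) : Type := {u : Vertex k // u.1.length = n}

instance lv_finite (n : ℕ) : Finite (Lv k n) := by
  refine Finite.of_injective
    (fun u : Lv k n => fun i : Fin n =>
      (⟨u.1.1[i.1]'(by rw [u.2]; exact i.2), u.1.2 _ _⟩ : Fin (k i))) ?_
  intro u w h
  apply Subtype.ext
  apply Subtype.ext
  apply List.ext_getElem (by rw [u.2, w.2])
  intro i h1 h2
  have := congrFun h ⟨i, by rw [← u.2]; exact h1⟩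
  simpa using this

/-- The leftmost vertex of level `n`. -/
def v0 (hk : ∀ n, 2 ≤ k n) (n : ℕ) : Lv k n :=
  ⟨⟨List.replicate n 0, by
    intro i h
    rw [List.getElem_replicate]
    exact lt_of_lt_of_le two_pos (hk i)⟩, List.length_replicate⟩

theorem tk_v0 (hk : ∀ n, 2 ≤ k n) {m n : ℕ} (h : m ≤ n) : tk m (v0 hk n).1 = (v0 hk m).1 := by
  apply Subtype.ext
  simp [tk_val, v0, List.take_replicate, h]

/-- Every vertex has descendants on every lower level. -/
theorem exists_desc (hk : ∀ n, 2 ≤ k n) (w : Vertex k) {n : ℕ} (h : w.1.length ≤ n) :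
    ∃ v : Vertex k, v.1.length = n ∧ w.1 <+: v.1 := by
  refine ⟨⟨w.1 ++ List.replicate (n - w.1.length) 0, ?_⟩, ?_, List.prefix_append _ _⟩
  · intro i hi
    by_cases h1 : i < w.1.length
    · rw [List.getElem_append_left h1]; exact w.2 i h1
    · rw [List.getElem_append_right (by omega), List.getElem_replicate]
      exact lt_of_lt_of_le two_pos (hk i)
  · simp; omega

/-- A second vertex on level one. -/
def v1 (hk : ∀ n, 2 ≤ k n) : Lv k 1 :=
  ⟨⟨[1], by
    intro i h
    have : i = 0 := by simpa using h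
    subst this
    exact lt_of_lt_of_le one_lt_two (hk 0)⟩, rfl⟩

theorem v1_ne (hk : ∀ n, 2 ≤ k n) : v1 hk ≠ v0 hk 1 := by
  intro h
  have := congrArg (fun u : Lv k 1 => u.1.1) h
  simp [v1, v0] at this

end tree

section action
variable {k : ℕ → ℕ} {G : Type u} [Group G] {ρ : G →* Equiv.Perm (Vertex k)}

theorem mem_rist {u : Vertex k} {g : G} :
    g ∈ rist ρ u ↔ ∀ v : Vertex k, ¬ u.1 <+: v.1 → ρ g v = v := Iff.rfl

/-- Pointwise stabilizer of the subtree rooted at `w`. -/
def fixSub (ρ : G →* Equiv.Perm (Vertex k)) (w : Vertex k) : Subgroup G where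
  carrier := {g | ∀ v : Vertex k, w.1 <+: v.1 → ρ g v = v}
  one_mem' := by intro v _; simp
  mul_mem' := by
    intro a b ha hb v hv
    simp only [map_mul, Equiv.Perm.coe_mul, Function.comp_apply]
    rw [hb v hv, ha v hv]
  inv_mem' := by
    intro a ha v hv
    rw [map_inv, Equiv.Perm.inv_eq_iff_eq]
    exact (ha v hv).symm

theorem mem_fixSub {w : Vertex k} {g : G} :
    g ∈ fixSub ρ w ↔ ∀ v : Vertex k, w.1 <+: v.1 → ρ g v = v := Iff.rfl

theorem rist_maps {u v : Vertex k} {g : G} (hg : g ∈ rist ρ u) (h : u.1 <+: v.1) :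
    u.1 <+: (ρ g v).1 := by
  by_contra hne
  have h1 := hg _ hne
  have h2 : ρ g v = v := (ρ g).injective h1
  exact hne (h2.symm ▸ h)

theorem rist_le_fixSub {u w : Vertex k} (hl : u.1.length = w.1.length) (hne : u ≠ w) :
    rist ρ u ≤ fixSub ρ w := by
  intro g hg v hv
  exact hg v fun hu => hne (pre_eq_of_len hu hv hl)

theorem rist_mono {u w : Vertex k} (h : u.1 <+: w.1) : rist ρ w ≤ rist ρ u :=
  fun _ hg v hv => hg v fun h' => hv (h.trans h')

theorem fixSub_mono {u w : Vertex k} (h : u.1 <+: w.1) : fixSub ρ u ≤ fixSub ρ w :=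
  fun _ hg v hv => hg v (h.trans hv)

variable (hρ : IsBranchAction k ρ)
include hρ

theorem act_len (g : G) (v : Vertex k) : (ρ g v).1.length = v.1.length := aut_len (hρ.2.1 g) v

theorem act_pre (g : G) {u v : Vertex k} (h : u.1 <+: v.1) : (ρ g u).1 <+: (ρ g v).1 :=
  aut_pre (hρ.2.1 g) h

theorem eq_one_of_mem {u : Vertex k} {g : G} (h1 : g ∈ rist ρ u) (h2 : g ∈ fixSub ρ u) :
    g = 1 := by
  apply hρ.2.2.1
  rw [map_one]
  ext v
  by_cases hv : u.1 <+: v.1
  · rw [h2 v hv]; rfl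
  · rw [h1 v hv]; rfl

theorem commute_of_mem {u : Vertex k} {x y : G} (hx : x ∈ rist ρ u) (hy : y ∈ fixSub ρ u) :
    Commute x y := by
  apply hρ.2.2.1
  rw [map_mul, map_mul]
  refine Equiv.Perm.Disjoint.commute ?_
  intro v
  by_cases hv : u.1 <+: v.1
  · exact Or.inr (hy v hv)
  · exact Or.inl (hx v hv)

theorem conj_mem_rist {u : Vertex k} {x : G} (g : G) (hx : x ∈ rist ρ u) :
    g * x * g⁻¹ ∈ rist ρ (ρ g u) := by
  intro v hv
  have h1 : ¬ u.1 <+: (ρ g⁻¹ v).1 := by
    intro h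
    apply hv
    have := act_pre hρ g h
    simpa using this
  have h2 := hx _ h1
  simp only [map_mul, Equiv.Perm.coe_mul, Function.comp_apply]
  rw [h2]
  simp

theorem moves_desc {w v : Vertex k} {g : G} (hw : ρ g w ≠ w) (h : w.1 <+: v.1) : ρ g v ≠ v := by
  intro hv
  apply hw
  have h1 := act_pre hρ g h
  rw [hv] at h1
  exact pre_eq_of_len h1 h (act_len hρ g w)

theorem eq_one_of_level {n : ℕ} {g : G} (h : ∀ w : Lv k n, g ∈ fixSub ρ w.1) : g = 1 := by
  apply hρ.2.2.1
  rw [map_one]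
  refine Equiv.ext fun v => ?_
  show ρ g v = v
  by_contra hv
  obtain ⟨v', hv', hp⟩ := exists_desc hρ.1 v (le_max_left v.1.length n)
  have h1 := moves_desc hρ hv hp
  exact h1 (h ⟨tk n v', tk_len n v' (by rw [hv']; exact le_max_right _ _)⟩ v' (tk_pre n v'))

/-- The base rigid stabilizer of level `n`. -/
abbrev RB (n : ℕ) : Subgroup G := rist ρ (v0 hρ.1 n).1

/-- An element moving the base vertex to `w`. -/
noncomputable def gw {n : ℕ} (w : Lv k n) : G :=
  (hρ.2.2.2.1 (v0 hρ.1 n).1 w.1 (by rw [(v0 hρ.1 n).2, w.2])).choose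

theorem gw_spec {n : ℕ} (w : Lv k n) : ρ (gw hρ w) (v0 hρ.1 n).1 = w.1 :=
  (hρ.2.2.2.1 (v0 hρ.1 n).1 w.1 (by rw [(v0 hρ.1 n).2, w.2])).choose_spec

/-- The conjugation embedding of the base rigid stabilizer onto the one at `w`. -/
noncomputable def phi {n : ℕ} (w : Lv k n) : RB hρ n →* G :=
  (MulAut.conj (gw hρ w)).toMonoidHom.comp (RB hρ n).subtype

theorem phi_apply {n : ℕ} (w : Lv k n) (r : RB hρ n) :
    phi hρ w r = gw hρ w * r * (gw hρ w)⁻¹ := rfl

theorem phi_inj {n : ℕ} (w : Lv k n) : Function.Injective (phi hρ w) :=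
  (MulAut.conj (gw hρ w)).injective.comp (RB hρ n).subtype_injective

theorem phi_mem {n : ℕ} (w : Lv k n) (r : RB hρ n) : phi hρ w r ∈ rist ρ w.1 := by
  have := conj_mem_rist hρ (gw hρ w) r.2
  rwa [gw_spec] at this

theorem phi_range {n : ℕ} (w : Lv k n) : (phi hρ w).range = rist ρ w.1 := by
  apply le_antisymm
  · rintro _ ⟨r, rfl⟩
    exact phi_mem hρ w r
  · intro x hx
    have h1 := conj_mem_rist hρ (gw hρ w)⁻¹ hx
    have h2 : ρ (gw hρ w)⁻¹ w.1 = (v0 hρ.1 n).1 := by
      rw [← gw_spec hρ w]; simp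
    rw [h2] at h1
    refine ⟨⟨_, h1⟩, ?_⟩
    rw [phi_apply]
    group

theorem phi_comm (n : ℕ) : Pairwise fun w w' : Lv k n =>
    ∀ (x y : RB hρ n), Commute (phi hρ w x) (phi hρ w' y) := by
  intro w w' h x y
  refine commute_of_mem hρ (phi_mem hρ w x) (rist_le_fixSub ?_ ?_ (phi_mem hρ w' y))
  · rw [w.2, w'.2]
  · exact fun h' => h (Subtype.ext h'.symm)

noncomputable instance lvFintype (n : ℕ) : Fintype (Lv k n) := Fintype.ofFinite _

/-- The embedding of the power of the base rigid stabilizer onto the rigid level stabilizer. -/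
noncomputable def psi (n : ℕ) : (Lv k n → RB hρ n) →* G :=
  MonoidHom.noncommPiCoprod (N := fun _ : Lv k n => RB hρ n) (fun w => phi hρ w) (phi_comm hρ n)

theorem psi_range (n : ℕ) : (psi hρ n).range = ristLevel ρ n := by
  rw [psi, MonoidHom.noncommPiCoprod_range, ristLevel]
  exact iSup_congr fun w => phi_range hρ w

theorem psi_fi (n : ℕ) : (psi hρ n).range.FiniteIndex := by
  rw [psi_range]; exact hρ.2.2.2.2 n

theorem psi_single {n : ℕ} [DecidableEq (Lv k n)] (w : Lv k n) (r : RB hρ n) :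
    psi hρ n (Pi.mulSingle w r) = phi hρ w r :=
  MonoidHom.noncommPiCoprod_mulSingle (N := fun _ : Lv k n => RB hρ n) _ w r

theorem psi_mem {n : ℕ} (Q : Subgroup G) (y : Lv k n → RB hρ n)
    (h : ∀ w, phi hρ w (y w) ∈ Q) : psi hρ n y ∈ Q := by
  classical
  have : y ∈ Q.comap (psi hρ n) := by
    apply Subgroup.pi_mem_of_mulSingle_mem
    intro w
    rw [mem_comap, psi_single]
    exact h w
  exact this

theorem psi_decomp {n : ℕ} (y : Lv k n → RB hρ n) (w : Lv k n) :
    (phi hρ w (y w))⁻¹ * psi hρ n y ∈ fixSub ρ w.1 := by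
  classical
  rw [← psi_single, ← map_inv, ← map_mul]
  apply psi_mem
  intro w'
  by_cases h : w' = w
  · subst h
    simp
  · refine rist_le_fixSub (by rw [w.2, w'.2]) (fun h' => h (Subtype.ext h')) (phi_mem hρ w' _)

theorem psi_coord {n : ℕ} (y : Lv k n → RB hρ n) (w : Lv k n)
    (h : psi hρ n y ∈ fixSub ρ w.1) : y w = 1 := by
  have h1 := psi_decomp hρ y w
  have h2 : phi hρ w (y w) ∈ fixSub ρ w.1 := by
    have := mul_mem h1 (inv_mem h)
    simpa using this
  apply phi_inj hρ w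
  rw [map_one]
  exact eq_one_of_mem hρ (phi_mem hρ w _) h2

theorem psi_inj (n : ℕ) : Function.Injective (psi hρ n) := by
  rw [injective_iff_map_eq_one]
  intro y hy
  funext w
  exact psi_coord hρ y w (by rw [hy]; exact one_mem _)

theorem ve_level (n : ℕ) : VE (Lv k n → RB hρ n) G :=
  VE.of_inj (psi hρ n) (psi_inj hρ n) (psi_fi hρ n)

theorem ve_rist {n : ℕ} (w : Lv k n) : VE (RB hρ n) (rist ρ w.1) := by
  have := VE.of_equiv (MonoidHom.ofInjective (phi_inj hρ w))
  rwa [phi_range] at this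

theorem rb_infinite [Infinite G] (n : ℕ) : Infinite (RB hρ n) := by
  by_contra h
  rw [not_infinite_iff_finite] at h
  have := (ve_level hρ n).vq.finite
  exact not_finite G

theorem rist_infinite [Infinite G] (w : Vertex k) : Infinite (rist ρ w) := by
  by_contra h
  rw [not_infinite_iff_finite] at h
  have := (ve_rist hρ (⟨w, rfl⟩ : Lv k w.1.length)).symm.vq.finite
  have := rb_infinite hρ w.1.length
  exact not_finite (RB hρ w.1.length)

/-- A subgroup of finite index in a rigid stabilizer contains a nontrivial element of it. -/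
theorem exists_ne_one [Infinite G] {w : Vertex k} {Q : Subgroup G}
    (h : Q.relIndex (rist ρ w) ≠ 0) : ∃ g ∈ Q, g ∈ rist ρ w ∧ g ≠ 1 := by
  by_contra hne
  push Not at hne
  have := rist_infinite hρ w
  apply not_fi_bot (A := rist ρ w)
  refine fi_le (U := Q.subgroupOf (rist ρ w)) ⟨h⟩ ?_
  intro x hx
  rw [mem_bot]
  exact Subtype.ext (hne x.1 hx x.2)

theorem not_le_fixSub [Infinite G] {w : Vertex k} {Q : Subgroup G}
    (h : Q.relIndex (rist ρ w) ≠ 0) : ¬ Q ≤ fixSub ρ w := by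
  intro hle
  obtain ⟨g, hg, hg', hne⟩ := exists_ne_one hρ h
  exact hne (eq_one_of_mem hρ hg' (hle hg))

end action

end Pool.Agent.Lib.MP_53c676_al
end

-- part Pool.Agent.Lib.MP_53c676_al.Core
section

/-!
The structure of subgroups normalized by a finite index subgroup.
-/

namespace Pool.Agent.Lib.MP_53c676_al

universe u

open Subgroup
open scoped commutatorElement

section action
variable {k : ℕ → ℕ} {G : Type u} [Group G] {ρ : G →* Equiv.Perm (Vertex k)}

theorem relIndex_of_fi {K : Subgroup G} (hK : K.FiniteIndex) (L : Subgroup G) :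
    K.relIndex L ≠ 0 := fun h => hK.index_ne_zero (index_eq_zero_of_relIndex_eq_zero h)

variable (hρ : IsBranchAction k ρ)
include hρ

theorem comm_ne_bot [Infinite G] {N : Subgroup G} [N.Normal] (hN : N.FiniteIndex) (w : Vertex k) :
    ⁅N ⊓ rist ρ w, N ⊓ rist ρ w⁆ ≠ ⊥ := by
  intro hbot
  obtain ⟨g, hgN, hgw, hg1⟩ := exists_ne_one hρ (relIndex_of_fi hN (rist ρ w))
  have hmove : ∃ v : Vertex k, w.1 <+: v.1 ∧ ρ g v ≠ v := by
    by_contra hcon
    push Not at hcon
    exact hg1 (eq_one_of_mem hρ hgw hcon)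
  obtain ⟨v, hwv, hv⟩ := hmove
  obtain ⟨x, hxN, hxv, hx1⟩ := exists_ne_one hρ (relIndex_of_fi hN (rist ρ v))
  have hxw : x ∈ rist ρ w := rist_mono hwv hxv
  have h1 : ⁅g, x⁆ ∈ ⁅N ⊓ rist ρ w, N ⊓ rist ρ w⁆ :=
    commutator_mem_commutator ⟨hgN, hgw⟩ ⟨hxN, hxw⟩
  rw [hbot, mem_bot, commutatorElement_def, mul_inv_eq_one] at h1
  have h2 := conj_mem_rist hρ g hxv
  rw [h1] at h2
  exact hx1 (eq_one_of_mem hρ hxv (rist_le_fixSub (act_len hρ g v) hv h2))

theorem comm_relIndex (hJ : IsJustInfinite G) {K : Subgroup G} (hK : K.FiniteIndex)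
    (w : Vertex k) : (⁅K ⊓ rist ρ w, K ⊓ rist ρ w⁆ : Subgroup G).relIndex (rist ρ w) ≠ 0 := by
  have := hJ.1
  let N := K.normalCore
  have hN : N.FiniteIndex := finiteIndex_normalCore K
  let Dv : Vertex k → Subgroup G := fun v => ⁅N ⊓ rist ρ v, N ⊓ rist ρ v⁆
  let D : Subgroup G := ⨆ v : Lv k w.1.length, Dv v.1
  have hDv : ∀ v, Dv v ≤ rist ρ v := by
    intro v
    rw [commutator_le]
    intro a ha b hb
    rw [commutatorElement_def]
    exact mul_mem (mul_mem (mul_mem ha.2 hb.2) (inv_mem ha.2)) (inv_mem hb.2)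
  have hDn : D.Normal := by
    refine ⟨fun x hx g => ?_⟩
    have hle : D.map (MulAut.conj g).toMonoidHom ≤ D := by
      simp only [D]
      rw [Subgroup.map_iSup]
      refine iSup_le fun v => ?_
      refine le_trans ?_ (le_iSup (fun v : Lv k w.1.length => Dv v.1)
        ⟨ρ g v.1, by rw [act_len hρ, v.2]⟩)
      simp only [Dv]
      rw [map_commutator]
      have hm : (N ⊓ rist ρ v.1).map (MulAut.conj g).toMonoidHom ≤ N ⊓ rist ρ (ρ g v.1) := by
        rintro _ ⟨a, ha, rfl⟩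
        exact ⟨(inferInstance : N.Normal).conj_mem a ha.1 g, conj_mem_rist hρ g ha.2⟩
      exact commutator_mono hm hm
    exact hle ⟨x, hx, rfl⟩
  have hDne : D ≠ ⊥ := by
    intro h
    apply comm_ne_bot hρ hN w
    rw [eq_bot_iff, ← h]
    exact le_iSup (fun v : Lv k w.1.length => Dv v.1) ⟨w, rfl⟩
  have hDfi : D.FiniteIndex := by
    have := hJ.2 D hDne
    exact finiteIndex_of_finite_quotient
  let E : Subgroup G :=
    { carrier := {g | ∃ d ∈ Dv w, ∀ v : Vertex k, w.1 <+: v.1 → ρ g v = ρ d v}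
      one_mem' := ⟨1, one_mem _, fun _ _ => rfl⟩
      mul_mem' := by
        rintro a b ⟨d, hd, ha⟩ ⟨e, he, hb⟩
        refine ⟨d * e, mul_mem hd he, fun v hv => ?_⟩
        simp only [map_mul, Equiv.Perm.coe_mul, Function.comp_apply]
        rw [hb v hv, ha _ (rist_maps (hDv w he) hv)]
      inv_mem' := by
        rintro a ⟨d, hd, ha⟩
        refine ⟨d⁻¹, inv_mem hd, fun v hv => ?_⟩
        have h1 := ha _ (rist_maps (hDv w (inv_mem hd)) hv)
        rw [map_inv, Equiv.Perm.inv_eq_iff_eq, h1]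
        simp }
  have hDE : D ≤ E := by
    refine iSup_le fun v => ?_
    intro x hx
    by_cases hv : v.1 = w
    · exact ⟨x, hv ▸ hx, fun _ _ => rfl⟩
    · refine ⟨1, one_mem _, fun t ht => ?_⟩
      rw [rist_le_fixSub v.2 hv (hDv _ hx) t ht]
      simp
  have hfin : D ⊓ rist ρ w ≤ ⁅K ⊓ rist ρ w, K ⊓ rist ρ w⁆ := by
    rintro x ⟨hx, hxw⟩
    obtain ⟨d, hd, hxd⟩ := hDE hx
    have h1 : d⁻¹ * x = 1 := by
      refine eq_one_of_mem hρ (mul_mem (inv_mem (hDv w hd)) hxw) fun v hv => ?_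
      simp only [map_mul, map_inv, Equiv.Perm.coe_mul, Function.comp_apply]
      rw [hxd v hv]
      simp
    rw [inv_mul_eq_one] at h1
    rw [← h1]
    exact commutator_mono (inf_le_inf_right _ (normalCore_le K))
      (inf_le_inf_right _ (normalCore_le K)) hd
  intro h0
  have h1 := relIndex_eq_zero_of_le_left hfin h0
  rw [inf_relIndex_right] at h1
  exact relIndex_of_fi hDfi _ h1

theorem orbit_stab {K : Subgroup G} (hK : K.FiniteIndex) :
    ∃ m₀ : ℕ, ∀ v v' : Vertex k, v.1.length = v'.1.length → m₀ ≤ v.1.length →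
      tk m₀ v = tk m₀ v' → ∃ κ ∈ K, ρ κ v = v' := by
  let N := K.normalCore
  have hN : N.FiniteIndex := finiteIndex_normalCore K
  let St : ℕ → Subgroup G := fun n => (MulAction.stabilizer (Equiv.Perm (Vertex k))
    (v0 hρ.1 n).1).comap ρ
  have hSt : ∀ n g, g ∈ St n ↔ ρ g (v0 hρ.1 n).1 = (v0 hρ.1 n).1 := fun n g => Iff.rfl
  have hanti : Antitone St := by
    intro m n hmn g hg
    rw [hSt] at hg ⊢
    rw [← tk_v0 hρ.1 hmn, aut_tk (hρ.2.1 g), hg]
  have hanti' : Antitone fun n => (St n).map (QuotientGroup.mk' N) :=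
    fun m n hmn => map_mono (hanti hmn)
  obtain ⟨m₀, hm₀⟩ := WellFoundedLT.antitone_chain_condition hanti'
  refine ⟨m₀, fun v v' hl hm ht => ?_⟩
  obtain ⟨g, hg⟩ := hρ.2.2.2.1 (v0 hρ.1 v.1.length).1 v (v0 hρ.1 _).2
  obtain ⟨h, hh⟩ := hρ.2.2.2.1 (v0 hρ.1 v.1.length).1 v' ((v0 hρ.1 _).2.trans hl)
  have h1 : g⁻¹ * h ∈ St m₀ := by
    rw [hSt, map_mul, map_inv, Equiv.Perm.mul_apply, Equiv.Perm.inv_eq_iff_eq,
      ← tk_v0 hρ.1 hm, aut_tk (hρ.2.1 g), aut_tk (hρ.2.1 h), hg, hh, ht]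
  have h2 : QuotientGroup.mk' N (g⁻¹ * h) ∈ (St v.1.length).map (QuotientGroup.mk' N) := by
    rw [← hm₀ _ hm]
    exact mem_map_of_mem _ h1
  obtain ⟨s, hs, hs'⟩ := h2
  have h3 : g⁻¹ * h * s⁻¹ ∈ N := by
    rw [← QuotientGroup.ker_mk' N, MonoidHom.mem_ker, map_mul, map_inv, hs', mul_inv_cancel]
  refine ⟨g * (g⁻¹ * h * s⁻¹) * g⁻¹,
    normalCore_le K ((inferInstance : N.Normal).conj_mem _ h3 g), ?_⟩
  have h4 := (hSt _ _).mp (inv_mem hs)
  have h5 : g * (g⁻¹ * h * s⁻¹) * g⁻¹ = h * s⁻¹ * g⁻¹ := by group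
  have h6 : ρ g⁻¹ v = (v0 hρ.1 v.1.length).1 := by
    rw [map_inv, Equiv.Perm.inv_eq_iff_eq, hg]
  rw [h5]
  simp only [map_mul, Equiv.Perm.coe_mul, Function.comp_apply]
  rw [h6, h4, hh]

theorem double_comm {K Q : Subgroup G} (hQ : ∀ κ ∈ K, ∀ q ∈ Q, κ * q * κ⁻¹ ∈ Q) {p : G}
    (hp : ∀ κ ∈ K, ⁅p, κ⁆ ∈ Q) {w : Vertex k} (hw : ρ p w ≠ w) :
    ⁅K ⊓ rist ρ w, K ⊓ rist ρ w⁆ ≤ Q := by
  rw [commutator_le]
  intro x hx y hy
  have hq := hp x⁻¹ (inv_mem hx.1)
  have hz : p * x⁻¹ * p⁻¹ ∈ rist ρ (ρ p w) := conj_mem_rist hρ p (inv_mem hx.2)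
  have hc : Commute (p * x⁻¹ * p⁻¹) (x * y * x⁻¹) :=
    commute_of_mem hρ hz (rist_le_fixSub (act_len hρ p w).symm hw.symm
      (mul_mem (mul_mem hx.2 hy.2) (inv_mem hx.2)))
  have h1 := mul_mem hq (hQ y hy.1 _ (inv_mem hq))
  have h2 : ⁅p, x⁻¹⁆ * (y * ⁅p, x⁻¹⁆⁻¹ * y⁻¹) =
      (p * x⁻¹ * p⁻¹) * (x * y * x⁻¹) * (p * x⁻¹ * p⁻¹)⁻¹ * y⁻¹ := by
    simp only [commutatorElement_def]
    group
  rw [h2, hc.eq] at h1
  have h3 : ⁅x, y⁆ = x * y * x⁻¹ * (p * x⁻¹ * p⁻¹) * (p * x⁻¹ * p⁻¹)⁻¹ * y⁻¹ := by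
    simp only [commutatorElement_def]
    group
  rw [h3]
  exact h1

theorem comap_phi_fi {n : ℕ} (w : Lv k n) {Q : Subgroup G} (h : Q.relIndex (rist ρ w.1) ≠ 0) :
    (Q.comap (phi hρ w)).FiniteIndex := by
  refine ⟨?_⟩
  rwa [index_comap, phi_range]

theorem glue {Q : Subgroup G} {w : Vertex k} {n : ℕ} (hn : w.1.length ≤ n)
    (h : ∀ v : Lv k n, w.1 <+: v.1.1 → Q.relIndex (rist ρ v.1) ≠ 0) :
    Q.relIndex (rist ρ w) ≠ 0 := by
  classical
  let U : Lv k n → Subgroup (RB hρ n) := fun v =>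
    if w.1 <+: v.1.1 then Q.comap (phi hρ v) else ⊤
  have hU : ∀ v, (U v).FiniteIndex := by
    intro v
    by_cases hv : w.1 <+: v.1.1
    · simp only [U, hv, if_true]; exact comap_phi_fi hρ v (h v hv)
    · simp only [U, hv, if_false]; exact fi_top
  have h1 := fi_map (psi hρ n) (fi_pi hU) (psi_fi hρ n)
  have h2 : (Subgroup.pi Set.univ U).map (psi hρ n) ⊓ rist ρ w ≤ Q := by
    rintro _ ⟨⟨y, hy, rfl⟩, hw⟩
    apply psi_mem
    intro v
    by_cases hv : w.1 <+: v.1.1
    · have h3 : y v ∈ U v := hy v trivial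
      simp only [U, hv, if_true] at h3
      exact h3
    · have h3 : y v = 1 := by
        refine psi_coord hρ y v fun t ht => hw t fun hwt => hv ?_
        exact List.prefix_of_prefix_length_le hwt ht (by rw [v.2]; exact hn)
      rw [h3, map_one]
      exact one_mem _
  intro h0
  have h3 := relIndex_eq_zero_of_le_left h2 h0
  rw [inf_relIndex_right] at h3
  exact relIndex_of_fi h1 _ h3

theorem core (hJ : IsJustInfinite G) {K : Subgroup G} (hK : K.FiniteIndex) :
    ∃ m₀ : ℕ, ∀ P Q : Subgroup G, (∀ κ ∈ K, ∀ p ∈ P, κ * p * κ⁻¹ ∈ P) →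
      (∀ κ ∈ K, ∀ q ∈ Q, κ * q * κ⁻¹ ∈ Q) → (∀ p ∈ P, ∀ κ ∈ K, ⁅p, κ⁆ ∈ Q) →
      ∀ w : Vertex k, m₀ ≤ w.1.length → P ≤ fixSub ρ w ∨ Q.relIndex (rist ρ w) ≠ 0 := by
  obtain ⟨m₀, hm₀⟩ := orbit_stab hρ hK
  refine ⟨m₀, fun P Q hP hQ hPQ w hw => ?_⟩
  by_cases hfree : P ≤ fixSub ρ w
  · exact Or.inl hfree
  right
  have : ∃ p ∈ P, ∃ v : Vertex k, w.1 <+: v.1 ∧ ρ p v ≠ v := by
    by_contra hcon
    push Not at hcon
    exact hfree fun p hp => hcon p hp
  obtain ⟨p, hp, v, hwv, hv⟩ := this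
  refine glue hρ hwv.length_le fun v' hv' => ?_
  have ht : tk m₀ v = tk m₀ v'.1 := by
    apply Subtype.ext
    obtain ⟨a, ha⟩ := hwv
    obtain ⟨b, hb⟩ := hv'
    have e1 : v.1.take m₀ = w.1.take m₀ := by rw [← ha, List.take_append_of_le_length hw]
    have e2 : v'.1.1.take m₀ = w.1.take m₀ := by rw [← hb, List.take_append_of_le_length hw]
    exact e1.trans e2.symm
  obtain ⟨κ, hκ, hκv⟩ := hm₀ v v'.1 v'.2.symm (hw.trans hwv.length_le) ht
  have hmove : ρ (κ * p * κ⁻¹) v'.1 ≠ v'.1 := by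
    rw [← hκv]
    simpa using hv
  have h1 := double_comm hρ hQ (hPQ _ (hP κ hκ p hp)) hmove
  exact fun h0 => comm_relIndex hρ hJ hK v'.1 (relIndex_eq_zero_of_le_left h1 h0)

end action

end Pool.Agent.Lib.MP_53c676_al
end

-- part Pool.Agent.Lib.MP_53c676_al.Main
section

/-!
The minimality criterion.
-/

namespace Pool.Agent.Lib.MP_53c676_al

universe u

open Subgroup
open scoped commutatorElement

theorem exists_small_fibre {X Y : Type} [Finite X] [Finite Y] [Nonempty Y] (S : Y → X → Prop)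
    (hS : ∀ α β x, S α x → S β x → α = β) :
    ∃ α, Nat.card {x // S α x} * Nat.card Y ≤ Nat.card X := by
  have := Fintype.ofFinite Y
  have h1 : ∑ α : Y, Nat.card {x // S α x} ≤ Nat.card X := by
    rw [← Nat.card_sigma]
    refine Nat.card_le_card_of_injective (fun z : Σ α : Y, {x // S α x} => z.2.1) ?_
    rintro ⟨α, x, hx⟩ ⟨β, y, hy⟩ h
    dsimp only at h
    subst h
    obtain rfl := hS α β x hx hy
    rfl
  by_contra hcon
  push Not at hcon
  have h2 : ∑ _α : Y, Nat.card X < ∑ α : Y, Nat.card {x // S α x} * Nat.card Y :=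
    Finset.sum_lt_sum_of_nonempty Finset.univ_nonempty fun α _ => hcon α
  rw [← Finset.sum_mul, Finset.sum_const, Finset.card_univ, smul_eq_mul,
    ← Nat.card_eq_fintype_card, mul_comm] at h2
  exact absurd (Nat.mul_le_mul_right (Nat.card Y) h1) (not_le.mpr h2)

theorem exists_big_fibre {X Y : Type} [Finite X] [Finite Y] [Nonempty Y] (f : X → Y) (c : ℕ)
    (hc : c * Nat.card Y ≤ Nat.card X) : ∃ y, c ≤ Nat.card {x // f x = y} := by
  have := Fintype.ofFinite Y
  have h1 : ∑ y : Y, Nat.card {x // f x = y} = Nat.card X := by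
    rw [← Nat.card_sigma]
    exact Nat.card_congr (Equiv.sigmaFiberEquiv f)
  by_contra hcon
  push Not at hcon
  have h2 : ∑ y : Y, Nat.card {x // f x = y} < ∑ _y : Y, c :=
    Finset.sum_lt_sum_of_nonempty Finset.univ_nonempty fun y _ => hcon y
  rw [h1, Finset.sum_const, Finset.card_univ, smul_eq_mul, ← Nat.card_eq_fintype_card,
    mul_comm] at h2
  exact absurd hc (not_le.mpr h2)

section action
variable {k : ℕ → ℕ} {G : Type u} [Group G] {ρ : G →* Equiv.Perm (Vertex k)}
variable (hρ : IsBranchAction k ρ)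
include hρ

/-- The forest version of the level embedding. -/
noncomputable def bigPsi (ι : Type) (m : ℕ) : (ι × Lv k m → RB hρ m) →* (ι → G) where
  toFun y := fun j => psi hρ m fun w => y (j, w)
  map_one' := by
    funext j
    exact map_one (psi hρ m)
  map_mul' y z := by
    funext j
    exact map_mul (psi hρ m) (fun w => y (j, w)) (fun w => z (j, w))

theorem bigPsi_apply {ι : Type} {m : ℕ} (y : ι × Lv k m → RB hρ m) (j : ι) :
    bigPsi hρ ι m y j = psi hρ m fun w => y (j, w) := rfl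

theorem bigPsi_fi (ι : Type) [Finite ι] (m : ℕ) : (bigPsi hρ ι m).range.FiniteIndex := by
  refine fi_le (fi_pi (ι := ι) (U := fun _ => (psi hρ m).range) fun _ => psi_fi hρ m) ?_
  intro g hg
  have : ∀ j, ∃ y, psi hρ m y = g j := fun j => hg j trivial
  choose y hy using this
  exact ⟨fun x => y x.1 x.2, funext hy⟩

theorem bigPsi_single {ι : Type} [DecidableEq ι] {m : ℕ} [DecidableEq (Lv k m)] (j : ι)
    (w : Lv k m) (r : RB hρ m) :
    bigPsi hρ ι m (Pi.mulSingle (j, w) r) = Pi.mulSingle j (phi hρ w r) := by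
  funext j'
  rw [bigPsi_apply]
  by_cases h : j' = j
  · subst h
    rw [Pi.mulSingle_eq_same, ← psi_single]
    congr 1
    funext w'
    simp [Pi.mulSingle_apply]
  · rw [Pi.mulSingle_eq_of_ne h, ← map_one (psi hρ m)]
    congr 1
    funext w'
    simp [h]

theorem lemmaQ (hJ : IsJustInfinite G) {ι : Type} [Finite ι] {C : Type u} [Group C]
    (p : C →* (ι → G)) (hp : Function.Injective p) (hp' : p.range.FiniteIndex) :
    ∃ m₀ : ℕ, ∀ m, m₀ ≤ m → ∀ (H : Type u) [Group H] (q : C →* H), q.range.FiniteIndex →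
      VE ({x : ι × Lv k m // ∀ c, q c = 1 → p c x.1 ∈ fixSub ρ x.2.1} → RB hρ m) H := by
  classical
  let sg : ι → (G →* (ι → G)) := fun j => MonoidHom.mulSingle (fun _ : ι => G) j
  have hsg : ∀ j g, sg j g = Pi.mulSingle j g := fun _ _ => rfl
  let K : Subgroup G := ⨅ j, p.range.comap (sg j)
  have hK : K.FiniteIndex := finiteIndex_iInf fun j => fi_comap _ hp'
  obtain ⟨m₀, hm₀⟩ := core hρ hJ hK
  refine ⟨m₀, fun m hm H _ q hq' => ?_⟩
  let M : Subgroup (ι → G) := q.ker.map p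
  have hM : ∀ g ∈ p.range, ∀ x ∈ M, g * x * g⁻¹ ∈ M := by
    rintro _ ⟨c, rfl⟩ _ ⟨d, hd, rfl⟩
    exact ⟨c * d * c⁻¹, (inferInstance : q.ker.Normal).conj_mem d hd c, by simp⟩
  have hKj : ∀ j, ∀ κ ∈ K, sg j κ ∈ p.range := fun j κ hκ => (mem_iInf.mp hκ) j
  refine prod_lemma (pb1 (bigPsi hρ ι m) p) (q.comp (pb2 (bigPsi hρ ι m) p)) (pb1_inj _ _ hp)
    ?_ (fi_range_comp _ _ ?_ hq') _ ?_ ?_
  · rw [pb1_range]; exact fi_comap _ hp'
  · rw [pb2_range]; exact fi_comap _ (bigPsi_fi hρ ι m)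
  · rintro c hc ⟨j, w⟩ hx
    have h1 := hx _ hc
    rw [← pb_comm, bigPsi_apply] at h1
    exact psi_coord hρ _ w h1
  · rintro ⟨j, w⟩ hx
    have h1 := hm₀ (M.map (Pi.evalMonoidHom (fun _ : ι => G) j)) (M.comap (sg j)) ?_ ?_ ?_
      w.1 (by rw [w.2]; exact hm)
    · rcases h1 with h1 | h1
      · exfalso
        apply hx
        intro c hc
        exact h1 ⟨p c, ⟨c, hc, rfl⟩, rfl⟩
      · refine fi_le (comap_phi_fi hρ w h1) ?_
        intro r hr
        obtain ⟨c, hc, hc'⟩ := hr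
        refine ⟨⟨(Pi.mulSingle (j, w) r, c), mem_pb.mpr ?_⟩, hc, rfl⟩
        rw [bigPsi_single]
        exact hc'.symm
    · rintro κ hκ _ ⟨x, hx, rfl⟩
      refine ⟨_, hM _ (hKj j κ hκ) x hx, ?_⟩
      simp [hsg]
    · intro κ hκ x hx
      rw [mem_comap, map_mul, map_mul, map_inv]
      exact hM _ (hKj j κ hκ) _ hx
    · rintro _ ⟨x, hx, rfl⟩ κ hκ
      have h2 : x * (sg j κ * x⁻¹ * (sg j κ)⁻¹) ∈ M :=
        mul_mem hx (hM _ (hKj j κ hκ) _ (inv_mem hx))
      rw [mem_comap]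
      convert h2 using 1
      funext j'
      by_cases h : j' = j
      · subst h
        simp [hsg, commutatorElement_def, mul_assoc]
      · simp [hsg, h]

theorem lv_nonempty (n : ℕ) : Nonempty (Lv k n) := ⟨v0 hρ.1 n⟩

theorem shrink_step (hJ : IsJustInfinite G) {ι κ : Type} [Finite ι] [Finite κ] [Nonempty κ]
    (h : VQ (ι → G) (κ → G)) (m : ℕ) :
    ∃ m' c : ℕ, m ≤ m' ∧ VE (RB hρ m) (Fin c → RB hρ m') ∧
      c * (Nat.card κ * Nat.card (Lv k m)) ≤ Nat.card ι * Nat.card (Lv k m') := by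
  classical
  have := hJ.1
  have := lv_nonempty hρ m
  have h1 : VQ (ι → G) (κ × Lv k m → RB hρ m) :=
    h.trans ((VE.curry κ (Lv k m)).trans (VE.pi κ (ve_level hρ m))).symm.vq
  obtain ⟨C, _, p, q, hp, hp', hq'⟩ := h1
  obtain ⟨m₀, hm₀⟩ := lemmaQ hρ hJ p hp hp'
  let m' := max m m₀
  let ev : κ × Lv k m → ((κ × Lv k m → RB hρ m) →* RB hρ m) := fun α =>
    Pi.evalMonoidHom (fun _ => RB hρ m) α
  let S : κ × Lv k m → ι × Lv k m' → Prop := fun α x =>
    ∀ c, ((ev α).comp q) c = 1 → p c x.1 ∈ fixSub ρ x.2.1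
  have hS : ∀ α β x, S α x → S β x → α = β := by
    rintro α β ⟨j, w⟩ hα hβ
    by_contra hne
    let T : Subgroup (RB hρ m) := q.range.comap (MonoidHom.mulSingle (fun _ => RB hρ m) α)
    let U : Subgroup C := T.comap ((ev α).comp q)
    have hU : U.FiniteIndex := fi_comap _ (fi_comap _ hq')
    have hU' : ∀ c ∈ U, p c j ∈ fixSub ρ w.1 := by
      intro c hc
      obtain ⟨c₂, hc₂⟩ := hc
      have e1 : p c₂ j ∈ fixSub ρ w.1 := by
        apply hβ
        show q c₂ β = 1
        rw [hc₂]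
        exact Pi.mulSingle_eq_of_ne (Ne.symm hne) _
      have e2 : p (c * c₂⁻¹) j ∈ fixSub ρ w.1 := by
        apply hα
        show q (c * c₂⁻¹) α = 1
        rw [map_mul, map_inv, hc₂]
        simp [ev]
      have e3 := mul_mem e2 e1
      simpa using e3
    have hV := fi_comap (MonoidHom.mulSingle (fun _ : ι => G) j) (fi_map p hU hp')
    refine not_le_fixSub hρ (relIndex_of_fi hV (rist ρ w.1)) ?_
    rintro g ⟨c, hc, hc'⟩
    have e4 := hU' c hc
    rw [hc'] at e4
    simpa using e4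
  obtain ⟨α, hα⟩ := exists_small_fibre S hS
  refine ⟨m', Nat.card {x // S α x}, le_max_left _ _, ?_, ?_⟩
  · have h2 := hm₀ m' (le_max_right _ _) (RB hρ m) ((ev α).comp q)
      (fi_range_comp _ _ hq' (fi_range_of_surj _ fun a => ⟨fun _ => a, rfl⟩))
    exact h2.symm.trans (VE.of_card_eq (by simp [S]))
  · simpa [Nat.card_prod] using hα

theorem shrink_iter (hJ : IsJustInfinite G) {ι κ : Type} [Finite ι] [Finite κ] [Nonempty κ]
    (h : VQ (ι → G) (κ → G)) (m t : ℕ) :
    ∃ m' c : ℕ, m ≤ m' ∧ VE G (Fin c → RB hρ m') ∧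
      c * Nat.card κ ^ t ≤ Nat.card ι ^ t * Nat.card (Lv k m') := by
  induction t with
  | zero =>
    exact ⟨m, Nat.card (Lv k m), le_rfl,
      (ve_level hρ m).symm.trans (VE.of_card_eq (by simp)), by simp⟩
  | succ t ih =>
    obtain ⟨m', c, hm', hve, hc⟩ := ih
    obtain ⟨m'', c', hm'', hve', hc'⟩ := shrink_step hρ hJ h m'
    refine ⟨m'', c * c', hm'.trans hm'', ?_, ?_⟩
    · exact hve.trans ((VE.pi (Fin c) hve').trans ((VE.curry _ _).symm.trans
        (VE.of_card_eq (by simp))))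
    · calc c * c' * Nat.card κ ^ (t + 1) = (c * Nat.card κ ^ t) * (c' * Nat.card κ) := by ring
        _ ≤ (Nat.card ι ^ t * Nat.card (Lv k m')) * (c' * Nat.card κ) :=
          Nat.mul_le_mul_right _ hc
        _ = Nat.card ι ^ t * (c' * (Nat.card κ * Nat.card (Lv k m'))) := by ring
        _ ≤ Nat.card ι ^ t * (Nat.card ι * Nat.card (Lv k m'')) := Nat.mul_le_mul_left _ hc'
        _ = Nat.card ι ^ (t + 1) * Nat.card (Lv k m'') := by ring

theorem rb_vq_pow {m m' c : ℕ} (hm : m ≤ m')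
    (hc : c * Nat.card (Lv k m) ≤ Nat.card (Lv k m')) : VQ (RB hρ m) (Fin c → RB hρ m') := by
  classical
  have := lv_nonempty hρ m
  let f : Lv k m' → Lv k m := fun v => ⟨tk m v.1, tk_len m v.1 (by rw [v.2]; exact hm)⟩
  obtain ⟨w, hw⟩ := exists_big_fibre f c hc
  have h1 : VQ (rist ρ w.1) ({v // f v = w} → RB hρ m') := by
    refine ⟨pb (rist ρ w.1).subtype (psi hρ m'), inferInstance, pb1 _ _,
      (resHom (RB hρ m') Subtype.val).comp (pb2 _ _), pb1_inj _ _ (psi_inj hρ m'), ?_,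
      fi_range_of_surj _ ?_⟩
    · rw [pb1_range]; exact fi_comap _ (psi_fi hρ m')
    · intro y
      let z : Lv k m' → RB hρ m' := fun v => if h : f v = w then y ⟨v, h⟩ else 1
      have hz : psi hρ m' z ∈ rist ρ w.1 := by
        apply psi_mem
        intro v
        by_cases h : f v = w
        · refine rist_mono ?_ (phi_mem hρ v _)
          rw [← h]
          exact tk_pre m v.1
        · simp only [z, h, dif_neg, not_false_eq_true, map_one]
          exact one_mem _
      refine ⟨⟨(⟨_, hz⟩, z), mem_pb.mpr rfl⟩, ?_⟩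
      funext v
      show z v.1 = y v
      simp [z, v.2]
  exact (ve_rist hρ w).vq.trans (h1.trans (VQ.of_card_le (by simpa using hw)))

theorem rb_vq_of_lt (hJ : IsJustInfinite G) {a b : ℕ} (hab : b < a)
    (h : VQ (Fin b → G) (Fin a → G)) (m : ℕ) : VQ (RB hρ m) G := by
  have : Nonempty (Fin a) := ⟨⟨b, hab⟩⟩
  have ht : ∃ t : ℕ, b ^ t * Nat.card (Lv k m) ≤ a ^ t := by
    rcases Nat.eq_zero_or_pos b with rfl | hb
    · exact ⟨1, by simp⟩
    · have hb' : (0 : ℝ) < b := by exact_mod_cast hb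
      have h1 : (1 : ℝ) < (a : ℝ) / b := by
        rw [one_lt_div hb']; exact_mod_cast hab
      obtain ⟨t, ht⟩ := pow_unbounded_of_one_lt (Nat.card (Lv k m) : ℝ) h1
      refine ⟨t, ?_⟩
      rw [div_pow, lt_div_iff₀ (pow_pos hb' t), mul_comm] at ht
      exact_mod_cast ht.le
  obtain ⟨t, ht⟩ := ht
  obtain ⟨m', c, hm', hve, hc⟩ := shrink_iter hρ hJ h m t
  simp only [Nat.card_eq_fintype_card, Fintype.card_fin] at hc
  simp only [← Nat.card_eq_fintype_card] at hc
  have hpos : 0 < a ^ t := pow_pos (by omega) t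
  have h2 : c * Nat.card (Lv k m) ≤ Nat.card (Lv k m') := by
    refine Nat.le_of_mul_le_mul_left ?_ hpos
    calc a ^ t * (c * Nat.card (Lv k m)) = (c * a ^ t) * Nat.card (Lv k m) := by ring
      _ ≤ (b ^ t * Nat.card (Lv k m')) * Nat.card (Lv k m) := Nat.mul_le_mul_right _ hc
      _ = (b ^ t * Nat.card (Lv k m)) * Nat.card (Lv k m') := by ring
      _ ≤ a ^ t * Nat.card (Lv k m') := Nat.mul_le_mul_right _ ht
  exact (rb_vq_pow hρ hm' h2).trans hve.symm.vq

/-- The diagonal identification of a group with its first power. -/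
def toUnit (A : Type u) [Group A] : A →* (Unit → A) where
  toFun a := fun _ => a
  map_one' := rfl
  map_mul' _ _ := rfl

omit hρ in
theorem toUnit_inj (A : Type u) [Group A] : Function.Injective (toUnit A) :=
  fun _ _ h => congrFun h ()

omit hρ in
theorem toUnit_fi (A : Type u) [Group A] : (toUnit A).range.FiniteIndex :=
  fi_range_of_surj _ fun y => ⟨y (), rfl⟩

theorem minimal_of_rb (hJ : IsJustInfinite G) (h : ∀ m, VQ (RB hρ m) G) : IsMinimalGroup G := by
  refine ⟨hJ.1, fun H _ hH => ?_⟩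
  obtain ⟨G₀, H₀, N, _, hG₀, hH₀, hN, f, hf⟩ := hH
  obtain ⟨m, hm⟩ := lemmaQ hρ hJ ((toUnit G).comp G₀.subtype)
    ((toUnit_inj G).comp G₀.subtype_injective)
    (fi_range_comp _ _ (by rwa [range_subtype]) (toUnit_fi G))
  have h1 := hm m le_rfl (H₀ ⧸ N) f (fi_range_of_surj f hf)
  rcases isEmpty_or_nonempty {x : Unit × Lv k m // ∀ c, f c = 1 →
      ((toUnit G).comp G₀.subtype) c x.1 ∈ fixSub ρ x.2.1} with he | ⟨⟨x⟩⟩
  · left
    have h2 : Finite (H₀ ⧸ N) := h1.vq.finite
    have h3 : Finite H₀ := (finite_iff_finite_and_finiteIndex N).mpr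
      ⟨hN, finiteIndex_of_finite_quotient⟩
    exact (finite_iff_finite_and_finiteIndex H₀).mpr ⟨h3, hH₀⟩
  · right
    refine VQ.larger ((VE.subgroup H₀ hH₀).symm.vq.trans ((VQ.of_hom (QuotientGroup.mk' N)
      (fi_range_of_surj _ (QuotientGroup.mk'_surjective N))).trans
      (h1.symm.vq.trans ((VQ.eval x).trans (h m)))))

theorem vq_of_larger (hJ : IsJustInfinite G) {A : Type u} [Group A] (h : Larger A G) :
    VQ A G := by
  have := hJ.1
  obtain ⟨A₀, G₀, N, hNn, hA₀, hG₀, hN, f, hf⟩ := h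
  have hbot : N = ⊥ := by
    obtain ⟨m₀, hm₀⟩ := core hρ hJ hG₀
    let P : Subgroup G := N.map G₀.subtype
    have hP : ∀ κ ∈ G₀, ∀ p ∈ P, κ * p * κ⁻¹ ∈ P := by
      rintro κ hκ _ ⟨x, hx, rfl⟩
      exact ⟨_, hNn.conj_mem x hx ⟨κ, hκ⟩, rfl⟩
    have hPfin : Finite P := Finite.of_surjective _ (G₀.subtype.subgroupMap_surjective N)
    have h1 : ∀ w : Lv k m₀, P ≤ fixSub ρ w.1 := by
      intro w
      refine (hm₀ P P hP hP ?_ w.1 w.2.ge).resolve_right fun h2 => ?_
      · intro p hp κ hκ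
        have := mul_mem hp (hP κ hκ _ (inv_mem hp))
        simpa [commutatorElement_def, mul_assoc] using this
      · have := rist_infinite hρ w.1
        have h3 : Finite (P.subgroupOf (rist ρ w.1)) :=
          Finite.of_injective (fun x : P.subgroupOf (rist ρ w.1) => (⟨x.1.1, x.2⟩ : P))
            fun x y hxy => Subtype.ext (Subtype.ext (congrArg (fun z : P => (z : G)) hxy))
        have h4 : Finite (rist ρ w.1) :=
          (finite_iff_finite_and_finiteIndex _).mpr ⟨h3, ⟨h2⟩⟩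
        exact not_finite (rist ρ w.1)
    rw [eq_bot_iff]
    intro x hx
    rw [mem_bot]
    exact Subtype.ext (eq_one_of_level hρ fun w => h1 w ⟨x, hx, rfl⟩)
  have h2 : VE G₀ (G₀ ⧸ N) := by
    refine VE.of_inj (QuotientGroup.mk' N) ?_
      (fi_range_of_surj _ (QuotientGroup.mk'_surjective N))
    rw [← MonoidHom.ker_eq_bot_iff, QuotientGroup.ker_mk', hbot]
  exact (VE.subgroup A₀ hA₀).symm.vq.trans ((VQ.of_hom f (fi_range_of_surj f hf)).trans
    (h2.symm.trans (VE.subgroup G₀ hG₀)).vq)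

theorem rb_of_minimal (hJ : IsJustInfinite G) (h : IsMinimalGroup G) (m : ℕ) :
    VQ (RB hρ m) G := by
  have := hJ.1
  have := rb_infinite hρ m
  have h1 : VQ G (RB hρ m) := (ve_level hρ m).symm.vq.trans (VQ.eval (v0 hρ.1 m))
  rcases h.2 _ h1.larger with h2 | h2
  · exact absurd h2 (not_finite_iff_infinite.mpr inferInstance)
  · exact vq_of_larger hρ hJ h2

theorem exists_pow_of_rb (hJ : IsJustInfinite G) (h : VQ (RB hρ 1) G) :
    ∃ m j : ℕ, j < Nat.card (Lv k m) ∧ VE G (Fin j → RB hρ m) := by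
  classical
  have := hJ.1
  obtain ⟨C, _, p, q, hp, hp', hq'⟩ := h
  let ev : (Lv k 1 → RB hρ 1) →* RB hρ 1 := Pi.evalMonoidHom (fun _ => RB hρ 1) (v0 hρ.1 1)
  have hev : Function.Surjective ev := fun a => ⟨fun _ => a, rfl⟩
  let p₁ : pb ev p →* (Unit → G) := (toUnit G).comp ((psi hρ 1).comp (pb1 ev p))
  obtain ⟨m₀, hm₀⟩ := lemmaQ hρ hJ p₁
    ((toUnit_inj G).comp ((psi_inj hρ 1).comp (pb1_inj _ _ hp)))
    (fi_range_comp _ _ (fi_range_comp _ _ (by rw [pb1_range]; exact fi_comap _ hp')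
      (psi_fi hρ 1)) (toUnit_fi G))
  have h1 := hm₀ (max 1 m₀) (le_max_right _ _) G (q.comp (pb2 ev p))
    (fi_range_comp _ _ (by rw [pb2_range]; exact fi_comap _ (fi_range_of_surj _ hev)) hq')
  refine ⟨max 1 m₀, _, ?_, h1.symm.trans (VE.of_card_eq (Nat.card_eq_fintype_card.trans
    (Fintype.card_fin _)))⟩
  obtain ⟨x, hx, hx'⟩ := exists_desc hρ.1 (v1 hρ.1).1 (n := max 1 m₀)
    (by rw [(v1 hρ.1).2]; exact le_max_left _ _)
  have h2 : Nat.card (Lv k (max 1 m₀)) = Nat.card (Unit × Lv k (max 1 m₀)) := by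
    simp
  rw [h2]
  refine Finite.card_subtype_lt (x := ((), ⟨x, hx⟩)) fun hcon => ?_
  obtain ⟨g, -, hg, hg1⟩ := exists_ne_one hρ (relIndex_of_fi (K := ⊤) fi_top (rist ρ x))
  have h3 : g ∈ (phi hρ (v1 hρ.1)).range := by
    rw [phi_range]; exact rist_mono hx' hg
  obtain ⟨r, hr⟩ := h3
  have h4 : (Pi.mulSingle (v1 hρ.1) r, (1 : C)) ∈ pb ev p := by
    rw [mem_pb, map_one]
    exact Pi.mulSingle_eq_of_ne (v1_ne hρ.1).symm _
  have h5 := hcon ⟨_, h4⟩ (map_one q)
  have h6 : psi hρ 1 (Pi.mulSingle (v1 hρ.1) r) ∈ fixSub ρ x := h5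
  rw [psi_single, hr] at h6
  exact hg1 (eq_one_of_mem hρ hg h6)

theorem pow_of_pow {m j : ℕ} (h : VE G (Fin j → RB hρ m)) :
    VE (Fin (Nat.card (Lv k m)) → G) (Fin j → G) := by
  refine (VE.pi _ h).trans ((VE.curry _ _).symm.trans (VE.trans ?_
    ((VE.curry (Fin j) (Lv k m)).trans (VE.pi _ (ve_level hρ m)))))
  exact VE.of_card_eq (by simp [mul_comm])

theorem criterion (hJ : IsJustInfinite G) :
    List.TFAE [IsMinimalGroup G,
      ∃ a b : ℕ, a ≠ b ∧ AbsComm (Fin a → G) (Fin b → G),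
      ∃ (u : Vertex k) (j : ℕ), j < Nat.card {v : Vertex k // v.1.length = u.1.length} ∧
        AbsComm G (Fin j → rist ρ u)] := by
  tfae_have 1 → 3 := by
    intro h
    obtain ⟨m, j, hj, hve⟩ := exists_pow_of_rb hρ hJ (rb_of_minimal hρ hJ h 1)
    refine ⟨(v0 hρ.1 m).1, j, ?_, absComm_iff.mpr hve⟩
    rw [(v0 hρ.1 m).2]
    exact hj
  tfae_have 3 → 2 := by
    rintro ⟨u, j, hj, hve⟩
    have h1 := (absComm_iff.mp hve).trans
      (VE.pi (Fin j) (ve_rist hρ (⟨u, rfl⟩ : Lv k u.1.length)).symm)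
    exact ⟨_, j, hj.ne', absComm_iff.mpr (pow_of_pow hρ h1)⟩
  tfae_have 2 → 1 := by
    rintro ⟨a, b, hab, hve⟩
    rw [absComm_iff] at hve
    rcases lt_or_gt_of_ne hab with h | h
    · exact minimal_of_rb hρ hJ (rb_vq_of_lt hρ hJ h hve.vq)
    · exact minimal_of_rb hρ hJ (rb_vq_of_lt hρ hJ h hve.symm.vq)
  tfae_finish

end action

end Pool.Agent.Lib.MP_53c676_al
end
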