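import Pool.Agent.Lib.MP_53c676_al.AltDefs
import Pool.Agent.Lib.MP_53c676_al.Main

/-!
The wreath recursion for the groups `altGroup k`.
-/

namespace Pool.Agent.Lib.MP_53c676_al

open Equiv Subgroup
open scoped commutatorElement

/-- The shifted sequence. -/
abbrev sh (k : ℕ → ℕ) : ℕ → ℕ := fun i => k (i + 1)

variable {k : ℕ → ℕ}

/-- The root. -/
def vnil (k : ℕ → ℕ) : Vertex k := ⟨[], fun _ h => absurd h (by simp)⟩

/-- Prepending a letter. -/
def vcons (x : Fin (k 0)) (w : Vertex (sh k)) : Vertex k :=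
  ⟨x.1 :: w.1, fun i h => by
    cases i with
    | zero => exact x.2
    | succ i => exact w.2 i (by simpa using h)⟩

@[simp] theorem vnil_val : (vnil k).1 = [] := rfl

@[simp] theorem vcons_val (x : Fin (k 0)) (w : Vertex (sh k)) : (vcons x w).1 = x.1 :: w.1 := rfl

theorem vcases (v : Vertex k) : v = vnil k ∨ ∃ x w, v = vcons x w := by
  obtain ⟨l, hl⟩ := v
  cases l with
  | nil => exact Or.inl rfl
  | cons a l =>
    exact Or.inr ⟨⟨a, hl 0 (by simp)⟩, ⟨l, fun i h => hl (i + 1) (by simpa using h)⟩, rfl⟩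

theorem vcons_inj {x y : Fin (k 0)} {v w : Vertex (sh k)} :
    vcons x v = vcons y w ↔ x = y ∧ v = w := by
  constructor
  · intro h
    have h1 := congrArg Subtype.val h
    simp only [vcons_val, List.cons.injEq] at h1
    exact ⟨Fin.ext h1.1, Subtype.ext h1.2⟩
  · rintro ⟨rfl, rfl⟩
    rfl

theorem vcons_ne (x : Fin (k 0)) (w : Vertex (sh k)) : vcons x w ≠ vnil k := fun h => by
  simpa using congrArg Subtype.val h

theorem vind {P : ∀ k : ℕ → ℕ, Vertex k → Prop} (h0 : ∀ k, P k (vnil k))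
    (h1 : ∀ k x w, P (sh k) w → P k (vcons x w)) (k : ℕ → ℕ) (v : Vertex k) : P k v := by
  obtain ⟨n, hn⟩ : ∃ n, v.1.length = n := ⟨_, rfl⟩
  induction n generalizing k with
  | zero =>
    rcases vcases v with rfl | ⟨x, w, rfl⟩
    · exact h0 k
    · simp at hn
  | succ n ih =>
    rcases vcases v with rfl | ⟨x, w, rfl⟩
    · exact h0 k
    · exact h1 k x w (ih _ w (by simpa using hn))

/-- Vertices are the root or a letter followed by a vertex of the shifted tree. -/
noncomputable def vEquiv (k : ℕ → ℕ) : Option (Fin (k 0) × Vertex (sh k)) ≃ Vertex k :=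
  Equiv.ofBijective (fun o => o.elim (vnil k) fun p => vcons p.1 p.2) ⟨by
    rintro (_ | ⟨x, v⟩) (_ | ⟨y, w⟩) h
    · rfl
    · exact absurd h.symm (vcons_ne y w)
    · exact absurd h (vcons_ne x v)
    · obtain ⟨rfl, rfl⟩ := vcons_inj.1 h
      rfl, by
    intro v
    rcases vcases v with rfl | ⟨x, w, rfl⟩
    · exact ⟨none, rfl⟩
    · exact ⟨some (x, w), rfl⟩⟩

/-- The automorphism with root permutation `τ` and sections `f`. -/
noncomputable def wr (τ : Perm (Fin (k 0))) (f : Fin (k 0) → Perm (Vertex (sh k))) :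
    Perm (Vertex k) :=
  (vEquiv k).permCongr (Equiv.optionCongr (Equiv.prodShear τ f))

@[simp] theorem wr_nil (τ : Perm (Fin (k 0))) (f : Fin (k 0) → Perm (Vertex (sh k))) :
    wr τ f (vnil k) = vnil k := by
  have h : (vEquiv k).symm (vnil k) = none := (vEquiv k).symm_apply_eq.2 rfl
  simp only [wr, Equiv.permCongr_apply, h]
  rfl

@[simp] theorem wr_cons (τ : Perm (Fin (k 0))) (f : Fin (k 0) → Perm (Vertex (sh k)))
    (x : Fin (k 0)) (w : Vertex (sh k)) : wr τ f (vcons x w) = vcons (τ x) (f x w) := by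
  have h : (vEquiv k).symm (vcons x w) = some (x, w) := (vEquiv k).symm_apply_eq.2 rfl
  simp only [wr, Equiv.permCongr_apply, h]
  rfl

theorem vext {g h : Perm (Vertex k)} (h0 : g (vnil k) = h (vnil k))
    (h1 : ∀ x w, g (vcons x w) = h (vcons x w)) : g = h := by
  ext1 v
  rcases vcases v with rfl | ⟨x, w, rfl⟩
  · exact h0
  · exact h1 x w

theorem wr_mul (τ τ' : Perm (Fin (k 0))) (f f' : Fin (k 0) → Perm (Vertex (sh k))) :
    wr τ f * wr τ' f' = wr (τ * τ') fun x => f (τ' x) * f' x :=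
  vext (by simp) fun x w => by simp

theorem wr_one : wr (1 : Perm (Fin (k 0))) 1 = 1 := vext (by simp) fun x w => by simp

theorem wr_inj {τ τ' : Perm (Fin (k 0))} {f f' : Fin (k 0) → Perm (Vertex (sh k))}
    (h : wr τ f = wr τ' f') : τ = τ' ∧ f = f' := by
  have h1 : ∀ x w, τ x = τ' x ∧ f x w = f' x w := fun x w => by
    have := congrArg (fun g : Perm (Vertex k) => g (vcons x w)) h
    simpa [vcons_inj] using this
  exact ⟨Equiv.ext fun x => (h1 x (vnil _)).1, funext fun x => Equiv.ext fun w => (h1 x w).2⟩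

/-- Automorphisms that fix the first level. -/
noncomputable def secHom (k : ℕ → ℕ) :
    (Fin (k 0) → Perm (Vertex (sh k))) →* Perm (Vertex k) where
  toFun f := wr 1 f
  map_one' := wr_one
  map_mul' f f' := by rw [wr_mul]; rfl

/-- Rooted automorphisms. -/
noncomputable def rootHom (k : ℕ → ℕ) : Perm (Fin (k 0)) →* Perm (Vertex k) where
  toFun τ := wr τ 1
  map_one' := wr_one
  map_mul' τ τ' := by rw [wr_mul]; rfl

@[simp] theorem secHom_nil (f : Fin (k 0) → Perm (Vertex (sh k))) :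
    secHom k f (vnil k) = vnil k := wr_nil _ _

@[simp] theorem secHom_cons (f : Fin (k 0) → Perm (Vertex (sh k))) (x : Fin (k 0))
    (w : Vertex (sh k)) : secHom k f (vcons x w) = vcons x (f x w) := wr_cons _ _ _ _

@[simp] theorem rootHom_nil (τ : Perm (Fin (k 0))) : rootHom k τ (vnil k) = vnil k := wr_nil _ _

@[simp] theorem rootHom_cons (τ : Perm (Fin (k 0))) (x : Fin (k 0)) (w : Vertex (sh k)) :
    rootHom k τ (vcons x w) = vcons (τ x) w := wr_cons _ _ _ _

theorem root_mul_sec (τ : Perm (Fin (k 0))) (f : Fin (k 0) → Perm (Vertex (sh k))) :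
    rootHom k τ * secHom k f = secHom k (fun x => f (τ⁻¹ x)) * rootHom k τ :=
  vext (by simp) fun x w => by simp

theorem rootHom_val (τ : Perm (Fin (k 0))) (v : Vertex k) :
    (rootHom k τ v).1 = rootAct τ v.1 := by
  rcases vcases v with rfl | ⟨x, w, rfl⟩
  · simp [rootAct]
  · simp [rootAct, extPerm]

theorem extPerm_mul {j : ℕ} (σ τ : Perm (Fin j)) (x : ℕ) :
    extPerm (σ * τ) x = extPerm σ (extPerm τ x) := by
  unfold extPerm
  by_cases h : x < j <;> simp [h]

theorem extPerm_one {j : ℕ} (x : ℕ) : extPerm (1 : Perm (Fin j)) x = x := by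
  unfold extPerm
  by_cases h : x < j <;> simp [h]

theorem rootAct_mul {j : ℕ} (σ τ : Perm (Fin j)) (w : List ℕ) :
    rootAct (σ * τ) w = rootAct σ (rootAct τ w) := by
  cases w <;> simp [rootAct, extPerm_mul]

theorem rootAct_one {j : ℕ} (w : List ℕ) : rootAct (1 : Perm (Fin j)) w = w := by
  cases w <;> simp [rootAct, extPerm_one]

theorem dirAct_mul {j : ℕ} (σ τ : Perm (Fin j)) (k : ℕ → ℕ) (w : List ℕ) :
    dirAct (σ * τ) k w = dirAct σ k (dirAct τ k w) := by
  induction w generalizing k with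
  | nil => simp [dirAct]
  | cons x w ih =>
    simp only [dirAct]
    split_ifs <;> simp [ih, rootAct_mul]

theorem dirAct_one {j : ℕ} (k : ℕ → ℕ) (w : List ℕ) : dirAct (1 : Perm (Fin j)) k w = w := by
  induction w generalizing k with
  | nil => simp [dirAct]
  | cons x w ih =>
    simp only [dirAct]
    split_ifs <;> simp [ih, rootAct_one]

theorem dirAct_triv {j : ℕ} (τ : Perm (Fin j)) (k : ℕ → ℕ) (hk : ∀ n, k n ≠ j) (w : List ℕ) :
    dirAct τ k w = w := by
  induction w generalizing k with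
  | nil => simp [dirAct]
  | cons x w ih =>
    simp only [dirAct]
    split_ifs with h1 h2
    · rw [ih _ fun n => hk (n + 1)]
    · exact absurd h2.2 (hk 1)
    · rfl

theorem dirAct_valid {j : ℕ} (τ : Perm (Fin j)) (k : ℕ → ℕ) (v : Vertex k) :
    ∃ v' : Vertex k, v'.1 = dirAct τ k v.1 := by
  induction k, v using vind with
  | h0 k => exact ⟨vnil k, rfl⟩
  | h1 k x w ih =>
    obtain ⟨w', hw'⟩ := ih
    simp only [vcons_val, dirAct]
    split_ifs with h1 h2
    · exact ⟨vcons x w', by rw [vcons_val, hw']⟩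
    · obtain ⟨-, rfl⟩ := h2
      exact ⟨vcons x (rootHom (sh k) τ w), by rw [vcons_val, rootHom_val]⟩
    · exact ⟨vcons x w, rfl⟩

/-- The directed action on vertices. -/
def dirFun {j : ℕ} (τ : Perm (Fin j)) (k : ℕ → ℕ) (v : Vertex k) : Vertex k :=
  ⟨dirAct τ k v.1, by
    obtain ⟨v', h⟩ := dirAct_valid τ k v
    rw [← h]
    exact v'.2⟩

/-- Directed automorphisms. -/
def dirHom (k : ℕ → ℕ) (j : ℕ) : Perm (Fin j) →* Perm (Vertex k) where
  toFun τ :=
    { toFun := dirFun τ k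
      invFun := dirFun τ⁻¹ k
      left_inv := fun v => Subtype.ext (by
        simp only [dirFun]; rw [← dirAct_mul, inv_mul_cancel, dirAct_one])
      right_inv := fun v => Subtype.ext (by
        simp only [dirFun]; rw [← dirAct_mul, mul_inv_cancel, dirAct_one]) }
  map_one' := Equiv.ext fun v => Subtype.ext (dirAct_one k v.1)
  map_mul' σ τ := Equiv.ext fun v => Subtype.ext (dirAct_mul σ τ k v.1)

theorem dirHom_val {j : ℕ} (τ : Perm (Fin j)) (v : Vertex k) :
    (dirHom k j τ v).1 = dirAct τ k v.1 := rfl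

theorem dirHom_triv {j : ℕ} (τ : Perm (Fin j)) (hk : ∀ n, k n ≠ j) : dirHom k j τ = 1 :=
  Equiv.ext fun v => Subtype.ext (dirAct_triv τ k hk v.1)

/-- The generating set. -/
def altGens (k : ℕ → ℕ) : Set (Perm (Vertex k)) :=
  {g | (∃ τ ∈ alternatingGroup (Fin (k 0)), g = rootHom k τ) ∨
    ∃ j : ℕ, ∃ τ ∈ alternatingGroup (Fin j), g = dirHom k j τ}

theorem altGroup_eq (k : ℕ → ℕ) : altGroup k = closure (altGens k) := by
  unfold altGroup altGens
  congr 1
  ext g
  refine or_congr (exists_congr fun τ => and_congr_right fun _ => ?_)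
    (exists_congr fun j => exists_congr fun τ => and_congr_right fun _ => ?_)
  · exact ⟨fun h => Equiv.ext fun v => Subtype.ext ((h v).trans (rootHom_val τ v).symm),
      fun h v => by rw [h, rootHom_val]⟩
  · exact ⟨fun h => Equiv.ext fun v => Subtype.ext (h v), fun h v => by rw [h, dirHom_val]⟩

theorem root_mem {τ : Perm (Fin (k 0))} (h : τ ∈ alternatingGroup (Fin (k 0))) :
    rootHom k τ ∈ altGroup k := by
  rw [altGroup_eq]
  exact subset_closure (Or.inl ⟨τ, h, rfl⟩)

theorem dir_mem {j : ℕ} {τ : Perm (Fin j)} (h : τ ∈ alternatingGroup (Fin j)) :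
    dirHom k j τ ∈ altGroup k := by
  rw [altGroup_eq]
  exact subset_closure (Or.inr ⟨j, τ, h, rfl⟩)

/-- The sections of a directed automorphism. -/
theorem dir_sec {j : ℕ} {τ : Perm (Fin j)} (h : τ ∈ alternatingGroup (Fin j)) :
    ∃ f : Fin (k 0) → Perm (Vertex (sh k)), dirHom k j τ = secHom k f ∧
      (∀ x, f x ∈ altGroup (sh k)) ∧ (∀ x : Fin (k 0), x.1 = 0 → f x = dirHom (sh k) j τ) ∧
      (∀ x : Fin (k 0), x.1 ≠ 0 → x.1 ≠ 1 → f x = 1) ∧
      ∀ x : Fin (k 0), x.1 = 1 → k 1 = j → ∀ w, (f x w).1 = rootAct τ w.1 := by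
  by_cases hj : k 1 = j
  · subst hj
    refine ⟨fun x => if x.1 = 0 then dirHom (sh k) _ τ else if x.1 = 1 then rootHom (sh k) τ
      else 1, vext (by rw [secHom_nil]; rfl) fun x w => Subtype.ext ?_, fun x => ?_, fun x hx => if_pos hx,
      fun x h0 h1 => by simp [h0, h1], fun x h1 _ w => by simp [h1, rootHom_val]⟩
    · rw [dirHom_val, secHom_cons]
      simp only [vcons_val, dirAct]
      split_ifs with h1 h2 h3 h3
      · rfl
      · rw [rootHom_val]
      · exact absurd h2.1 h3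
      · exact absurd ⟨h3, trivial⟩ h2
      · rfl
    · dsimp only
      split_ifs
      · exact dir_mem h
      · exact root_mem h
      · exact one_mem _
  · refine ⟨fun x => if x.1 = 0 then dirHom (sh k) _ τ else 1,
      vext (by rw [secHom_nil]; rfl) fun x w => Subtype.ext ?_, fun x => ?_, fun x hx => if_pos hx,
      fun x h0 _ => if_neg h0, fun x _ h1 => absurd h1 hj⟩
    · rw [dirHom_val, secHom_cons]
      simp only [vcons_val, dirAct]
      split_ifs with h1 h2
      · rfl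
      · exact absurd h2.2 hj
      · rfl
    · dsimp only
      split_ifs
      · exact dir_mem h
      · exact one_mem _

/-- Every element has an even root permutation and sections in the group of the shifted tree. -/
theorem exists_wr {g : Perm (Vertex k)} (hg : g ∈ altGroup k) :
    ∃ (f : Fin (k 0) → Perm (Vertex (sh k))) (τ : Perm (Fin (k 0))),
      (∀ x, f x ∈ altGroup (sh k)) ∧ τ ∈ alternatingGroup (Fin (k 0)) ∧
      g = secHom k f * rootHom k τ := by
  rw [altGroup_eq] at hg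
  induction hg using closure_induction with
  | mem g hg =>
    rcases hg with ⟨τ, hτ, rfl⟩ | ⟨j, τ, hτ, rfl⟩
    · exact ⟨1, τ, fun _ => one_mem _, hτ, by simp⟩
    · obtain ⟨f, h1, h2, -⟩ := dir_sec (k := k) hτ
      exact ⟨f, 1, h2, one_mem _, by simp [h1]⟩
  | one => exact ⟨1, 1, fun _ => one_mem _, one_mem _, by simp⟩
  | mul g g' _ _ ih ih' =>
    obtain ⟨f, τ, h1, h2, rfl⟩ := ih
    obtain ⟨f', τ', h1', h2', rfl⟩ := ih'
    refine ⟨f * fun x => f' (τ⁻¹ x), τ * τ', fun x => mul_mem (h1 x) (h1' _), mul_mem h2 h2', ?_⟩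
    rw [map_mul, map_mul, mul_assoc, ← mul_assoc (rootHom k τ), root_mul_sec]
    simp only [mul_assoc]
  | inv g _ ih =>
    obtain ⟨f, τ, h1, h2, rfl⟩ := ih
    refine ⟨fun x => f⁻¹ (τ⁻¹⁻¹ x), τ⁻¹, fun x => inv_mem (h1 _), inv_mem h2, ?_⟩
    rw [← root_mul_sec, mul_inv_rev, map_inv, map_inv]

theorem sec_single_move (h3 : 3 ≤ k 0) {x y : Fin (k 0)} {a : Perm (Vertex (sh k))}
    (h : secHom k (Pi.mulSingle x a) ∈ altGroup k) : secHom k (Pi.mulSingle y a) ∈ altGroup k := by
  have := alternatingGroup.isPretransitive_of_three_le_card (Fin (k 0)) (by simpa using h3)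
  obtain ⟨⟨τ, hτ⟩, hxy⟩ := MulAction.exists_smul_eq (alternatingGroup (Fin (k 0))) x y
  have hxy' : τ x = y := hxy
  have e : secHom k (Pi.mulSingle y a) =
      rootHom k τ * secHom k (Pi.mulSingle x a) * (rootHom k τ)⁻¹ := by
    rw [root_mul_sec, mul_inv_cancel_right]
    congr 1
    funext z
    rw [← hxy']
    simp only [Pi.mulSingle_apply, Perm.inv_eq_iff_eq]
  rw [e]
  exact mul_mem (mul_mem (root_mem hτ) h) (inv_mem (root_mem hτ))

theorem alt_perfect {j : ℕ} (h5 : 5 ≤ j) {H : Type*} [Group H] (φ : Perm (Fin j) →* H)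
    (Q : Subgroup H) (h : ∀ σ ∈ alternatingGroup (Fin j), ∀ τ ∈ alternatingGroup (Fin j),
      ⁅φ σ, φ τ⁆ ∈ Q) {τ : Perm (Fin j)} (hτ : τ ∈ alternatingGroup (Fin j)) : φ τ ∈ Q := by
  rw [← commutator_alternatingGroup_eq_self (by simpa using h5)] at hτ
  have : ⁅alternatingGroup (Fin j), alternatingGroup (Fin j)⁆ ≤ Q.comap φ :=
    commutator_le.2 fun σ hσ τ hτ => by
      rw [mem_comap, map_commutatorElement]
      exact h σ hσ τ hτ
  exact this hτ

theorem sec_single_dir (h5 : ∀ n, 5 ≤ k n) (x : Fin (k 0)) {j : ℕ} {τ : Perm (Fin j)}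
    (hτ : τ ∈ alternatingGroup (Fin j)) :
    secHom k (Pi.mulSingle x (dirHom (sh k) j τ)) ∈ altGroup k := by
  by_cases hj : 5 ≤ j
  swap
  · rw [dirHom_triv τ fun n hn => hj (hn ▸ h5 (n + 1)), Pi.mulSingle_one, map_one]
    exact one_mem _
  have h0 := h5 0
  let x0 : Fin (k 0) := ⟨0, by omega⟩
  let x1 : Fin (k 0) := ⟨1, by omega⟩
  let x2 : Fin (k 0) := ⟨2, by omega⟩
  let x3 : Fin (k 0) := ⟨3, by omega⟩
  refine sec_single_move (x := x0) (by omega) ?_
  let c : Perm (Fin (k 0)) := swap x1 x2 * swap x1 x3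
  have hc : c ∈ alternatingGroup (Fin (k 0)) :=
    (Perm.isThreeCycle_swap_mul_swap_same (by simp [x1, x2]) (by simp [x1, x3])
      (by simp [x2, x3])).mem_alternatingGroup
  have hc0 : c⁻¹ x0 = x0 := by
    rw [Perm.inv_eq_iff_eq]
    simp [c, x0, x1, x2, x3, swap_apply_def]
  have hc1 : c⁻¹ x1 = x2 := by
    rw [Perm.inv_eq_iff_eq]
    simp [c, x1, x2, x3, swap_apply_def]
  refine alt_perfect hj ((secHom k).comp ((MonoidHom.mulSingle _ x0).comp (dirHom (sh k) j))) _
    (fun σ hσ τ hτ => ?_) hτ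
  obtain ⟨f, e1, -, f0, f2, -⟩ := dir_sec (k := k) hσ
  obtain ⟨g, e2, -, g0, g2, -⟩ := dir_sec (k := k) hτ
  have hm : ⁅dirHom k j σ, rootHom k c * dirHom k j τ * (rootHom k c)⁻¹⁆ ∈ altGroup k := by
    rw [commutatorElement_def]
    have a1 := dir_mem (k := k) hσ
    have a2 := mul_mem (mul_mem (root_mem hc) (dir_mem (k := k) hτ)) (inv_mem (root_mem hc))
    exact mul_mem (mul_mem (mul_mem a1 a2) (inv_mem a1)) (inv_mem a2)
  rw [e1, e2, root_mul_sec, mul_inv_cancel_right, ← map_commutatorElement] at hm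
  have e3 : ⁅f, fun x => g (c⁻¹ x)⁆ =
      ⁅(Pi.mulSingle x0 (dirHom (sh k) j σ) : Fin (k 0) → Perm (Vertex (sh k))),
        (Pi.mulSingle x0 (dirHom (sh k) j τ) : Fin (k 0) → Perm (Vertex (sh k)))⁆ := by
    funext z
    simp only [commutatorElement_def, Pi.mul_apply, Pi.inv_apply]
    by_cases z0 : z = x0
    · subst z0
      rw [hc0, f0 _ rfl, g0 _ rfl, Pi.mulSingle_eq_same, Pi.mulSingle_eq_same]
    · rw [Pi.mulSingle_eq_of_ne z0, Pi.mulSingle_eq_of_ne z0]
      by_cases z1 : z = x1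
      · subst z1
        rw [hc1, g2 x2 (by simp [x2]) (by simp [x2])]
        simp
      · rw [f2 z (fun h => z0 (Fin.ext h)) (fun h => z1 (Fin.ext h))]
        simp
  rw [e3, map_commutatorElement] at hm
  exact hm

theorem sec_single_mem (h5 : ∀ n, 5 ≤ k n) (x : Fin (k 0)) {a : Perm (Vertex (sh k))}
    (ha : a ∈ altGroup (sh k)) : secHom k (Pi.mulSingle x a) ∈ altGroup k := by
  have key : altGroup (sh k) ≤
      (altGroup k).comap ((secHom k).comp (MonoidHom.mulSingle _ x)) := by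
    rw [altGroup_eq (sh k), closure_le]
    rintro g (⟨τ, hτ, rfl⟩ | ⟨j, τ, hτ, rfl⟩)
    · have h0 := h5 0
      let x0 : Fin (k 0) := ⟨0, by omega⟩
      let x1 : Fin (k 0) := ⟨1, by omega⟩
      refine sec_single_move (x := x1) (by omega) ?_
      obtain ⟨f, e1, -, f0, f2, f1⟩ := dir_sec (k := k) hτ
      have e2 : f = Pi.mulSingle x0 (dirHom (sh k) _ τ) * Pi.mulSingle x1 (rootHom (sh k) τ) := by
        funext z
        rw [Pi.mul_apply]
        by_cases z0 : z = x0
        · subst z0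
          rw [f0 _ rfl, Pi.mulSingle_eq_same, Pi.mulSingle_eq_of_ne (by simp [x0, x1]), mul_one]
        · rw [Pi.mulSingle_eq_of_ne z0, one_mul]
          by_cases z1 : z = x1
          · subst z1
            rw [Pi.mulSingle_eq_same]
            exact Equiv.ext fun w => Subtype.ext ((f1 _ rfl rfl w).trans (rootHom_val τ w).symm)
          · rw [Pi.mulSingle_eq_of_ne z1, f2 z (fun h => z0 (Fin.ext h)) fun h => z1 (Fin.ext h)]
      have a1 := dir_mem (k := k) hτ
      rw [e1, e2, map_mul] at a1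
      exact (mul_mem_cancel_left (sec_single_dir h5 x0 hτ)).1 a1
    · exact sec_single_dir h5 x hτ
  exact key ha

theorem sec_mem (h5 : ∀ n, 5 ≤ k n) {f : Fin (k 0) → Perm (Vertex (sh k))}
    (hf : ∀ x, f x ∈ altGroup (sh k)) : secHom k f ∈ altGroup k :=
  Subgroup.pi_mem_of_mulSingle_mem (H := (altGroup k).comap (secHom k)) f
    fun x => sec_single_mem h5 x (hf x)

theorem altGroup_perfect (h5 : ∀ n, 5 ≤ k n) : ⁅altGroup k, altGroup k⁆ = altGroup k := by
  refine le_antisymm (commutator_le_self _) ?_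
  conv_lhs => rw [altGroup_eq]
  rw [closure_le]
  rintro g (⟨τ, hτ, rfl⟩ | ⟨j, τ, hτ, rfl⟩)
  · exact alt_perfect (h5 0) (rootHom k) _
      (fun σ hσ τ hτ => commutator_mem_commutator (root_mem hσ) (root_mem hτ)) hτ
  · by_cases hj : 5 ≤ j
    · exact alt_perfect hj (dirHom k j) _
        (fun σ hσ τ hτ => commutator_mem_commutator (dir_mem hσ) (dir_mem hτ)) hτ
    · rw [dirHom_triv τ fun n hn => hj (hn ▸ h5 n)]
      exact one_mem _

theorem altGroup_fg {K : ℕ} (hK : ∀ n, k n ≤ K) : (altGroup k).FG := by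
  rw [Subgroup.fg_iff]
  refine ⟨altGens k, (altGroup_eq k).symm, ?_⟩
  have h1 : (Set.range (rootHom k)).Finite := Set.finite_range _
  have h2 : (⋃ j ∈ Set.Iic K, Set.range (dirHom k j)).Finite :=
    (Set.finite_Iic K).biUnion fun j _ => Set.finite_range _
  refine (h1.union h2).subset ?_
  rintro g (⟨τ, -, rfl⟩ | ⟨j, τ, -, rfl⟩)
  · exact Or.inl ⟨τ, rfl⟩
  · by_cases hj : j ≤ K
    · exact Or.inr (Set.mem_biUnion hj ⟨τ, rfl⟩)
    · rw [dirHom_triv τ fun n hn => hj (hn ▸ hK n)]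
      exact Or.inl ⟨1, map_one _⟩

end Pool.Agent.Lib.MP_53c676_al
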