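import Mathlib

/-!
Definitions for minimality (in the largeness order) of just infinite branch groups.
-/

namespace Pool.Agent.Lib.MP_53c676_al

universe u

/-- Vertices of the spherically homogeneous rooted tree with branching indices `k 0, k 1, ...`:
finite words whose `i`-th letter lies in `{0, ..., k i - 1}`.  Level `n` = words of length `n`. -/
def Vertex (k : ℕ → ℕ) : Type :=
  {w : List ℕ // ∀ (i : ℕ) (h : i < w.length), w[i] < k i}

/-- `v` is a child of `u`. -/
def IsChild {k : ℕ → ℕ} (u v : Vertex k) : Prop :=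
  ∃ x : ℕ, v.1 = u.1 ++ [x]

/-- Automorphisms of the rooted tree: permutations of the vertices preserving the child relation. -/
def IsTreeAut {k : ℕ → ℕ} (σ : Equiv.Perm (Vertex k)) : Prop :=
  ∀ u v : Vertex k, IsChild (σ u) (σ v) ↔ IsChild u v

/-- Rigid stabilizer of a vertex: the elements supported in the subtree rooted at `u`. -/
def rist {k : ℕ → ℕ} {G : Type u} [Group G] (ρ : G →* Equiv.Perm (Vertex k)) (u : Vertex k) :
    Subgroup G where
  carrier := {g | ∀ v : Vertex k, ¬ u.1 <+: v.1 → ρ g v = v}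
  one_mem' := by intro v _; simp
  mul_mem' := by
    intro a b ha hb v hv
    simp only [map_mul, Equiv.Perm.coe_mul, Function.comp_apply]
    rw [hb v hv, ha v hv]
  inv_mem' := by
    intro a ha v hv
    rw [map_inv, Equiv.Perm.inv_eq_iff_eq]
    exact (ha v hv).symm

/-- Rigid stabilizer of the level `n`. -/
def ristLevel {k : ℕ → ℕ} {G : Type u} [Group G] (ρ : G →* Equiv.Perm (Vertex k)) (n : ℕ) :
    Subgroup G :=
  ⨆ u : {u : Vertex k // u.1.length = n}, rist ρ u.1

/-- A faithful, level-transitive action by tree automorphisms with all rigid level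
stabilizers of finite index. -/
def IsBranchAction {G : Type u} [Group G] (k : ℕ → ℕ) (ρ : G →* Equiv.Perm (Vertex k)) : Prop :=
  (∀ n, 2 ≤ k n) ∧ (∀ g, IsTreeAut (ρ g)) ∧ Function.Injective ρ ∧
    (∀ u v : Vertex k, u.1.length = v.1.length → ∃ g, ρ g u = v) ∧
    ∀ n, (ristLevel ρ n).FiniteIndex

/-- Just infinite: infinite with all proper quotients finite. -/
def IsJustInfinite (G : Type u) [Group G] : Prop :=
  Infinite G ∧ ∀ (N : Subgroup G) [N.Normal], N ≠ ⊥ → Finite (G ⧸ N)

/-- The largeness preorder `G ⪰ H`. -/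
def Larger (G H : Type u) [Group G] [Group H] : Prop :=
  ∃ (G₀ : Subgroup G) (H₀ : Subgroup H) (N : Subgroup H₀) (_ : N.Normal),
    G₀.FiniteIndex ∧ H₀.FiniteIndex ∧ Finite N ∧
      ∃ f : G₀ →* H₀ ⧸ N, Function.Surjective f

/-- Minimal groups for the largeness order. -/
def IsMinimalGroup (G : Type u) [Group G] : Prop :=
  Infinite G ∧ ∀ (H : Type u) [Group H], Larger G H → Finite H ∨ Larger H G

/-- Abstract commensurability. -/
def AbsComm (G H : Type u) [Group G] [Group H] : Prop :=
  ∃ (G₀ : Subgroup G) (H₀ : Subgroup H), G₀.FiniteIndex ∧ H₀.FiniteIndex ∧ Nonempty (G₀ ≃* H₀)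

end Pool.Agent.Lib.MP_53c676_al
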